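import Pool.Agent.X216.ML.Rep

/-!
# A zero on the imaginary axis
-/

open MeasureTheory Set Filter Topology
open Complex (I)

namespace Pool.Agent.X216.ML

noncomputable def sn2 (a : ℝ) : ℝ := Real.sin (Real.pi / (2 * a))
noncomputable def cs2 (a : ℝ) : ℝ := Real.cos (Real.pi / (2 * a))
noncomputable def psi (a τ : ℝ) : ℝ := Real.arctan (BB a τ / AA a τ)
noncomputable def Psi (a τ : ℝ) : ℝ := τ * sn2 a - psi a τ
noncomputable def rho (a : ℝ) : ℝ := a * Real.sin (Real.pi * a) / Real.pi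

section
variable {a : ℝ}

lemma sn2_ge (h1 : 3 / 4 ≤ a) (h2 : a ≤ 1) : 1 / 2 ≤ sn2 a := by
  unfold sn2
  have hpi := Real.pi_pos
  have e : Real.sin (Real.pi / (2 * a)) = Real.cos (Real.pi / (2 * a) - Real.pi / 2) := by
    rw [Real.cos_sub_pi_div_two]
  rw [e, ← Real.cos_pi_div_three]
  have h3 : Real.pi / 2 ≤ Real.pi / (2 * a) := by
    apply div_le_div_of_nonneg_left hpi.le (by linarith) (by linarith)
  have h4 : Real.pi / (2 * a) ≤ 2 * Real.pi / 3 := by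
    rw [div_le_div_iff₀ (by linarith) (by norm_num)]
    nlinarith
  apply Real.cos_le_cos_of_nonneg_of_le_pi
  · linarith
  · linarith
  · linarith

lemma sn2_le (a : ℝ) : sn2 a ≤ 1 := Real.sin_le_one _

lemma sn2_cont : ContinuousOn sn2 (Icc (3 / 4) 1) := by
  unfold sn2
  apply Real.continuous_sin.comp_continuousOn
  apply ContinuousOn.div (by fun_prop) (by fun_prop)
  intro x hx
  have := hx.1
  intro h
  linarith

lemma cs2_cont : ContinuousOn cs2 (Icc (3 / 4) 1) := by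
  unfold cs2
  apply Real.continuous_cos.comp_continuousOn
  apply ContinuousOn.div (by fun_prop) (by fun_prop)
  intro x hx
  have := hx.1
  intro h
  linarith

lemma psi_cont : ContinuousOn (fun q : ℝ × ℝ => psi q.1 q.2) Dm := by
  unfold psi
  apply Real.continuous_arctan.comp_continuousOn
  apply contOn_BB.div contOn_AA
  rintro ⟨a, τ⟩ ⟨⟨h1, h2⟩, h3⟩
  exact (AA_pos h1 h2 h3).ne'

lemma Psi_cont : ContinuousOn (fun q : ℝ × ℝ => Psi q.1 q.2) Dm := by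
  unfold Psi
  have h : ContinuousOn (fun q : ℝ × ℝ => sn2 q.1) Dm :=
    sn2_cont.comp (by fun_prop) (fun q hq => hq.1)
  exact (ContinuousOn.mul (by fun_prop) h).sub psi_cont

lemma Psi_mono (h1 : 3 / 4 ≤ a) (h2 : a ≤ 1) {τ1 τ2 : ℝ} (hτ : 0 ≤ τ1) (h : τ1 < τ2) :
    Psi a τ1 < Psi a τ2 := by
  unfold Psi psi
  have hr := ratio_anti h1 h2 hτ h.le
  have h3 := Real.arctan_strictMono.monotone hr
  have h4 := sn2_ge h1 h2
  nlinarith

lemma exists_tau {K : ℝ} (hK : 2 ≤ K) (h1 : 3 / 4 ≤ a) (h2 : a ≤ 1) :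
    ∃ τ, 0 < τ ∧ Psi a τ = K := by
  have hT : (0 : ℝ) ≤ 2 * (K + 2) := by linarith
  have hc : ContinuousOn (Psi a) (Icc 0 (2 * (K + 2))) := by
    refine Psi_cont.comp (f := fun τ : ℝ => ((a, τ) : ℝ × ℝ)) (by fun_prop) ?_
    intro τ hτ
    exact ⟨⟨h1, h2⟩, mem_Ici.2 hτ.1⟩
  have hpi := Real.pi_lt_four
  have e0 : Psi a 0 < K := by
    unfold Psi psi
    have := Real.neg_pi_div_two_lt_arctan (BB a 0 / AA a 0)
    linarith
  have e1 : K < Psi a (2 * (K + 2)) := by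
    unfold Psi psi
    have := Real.arctan_lt_pi_div_two (BB a (2 * (K + 2)) / AA a (2 * (K + 2)))
    have h4 := sn2_ge h1 h2
    nlinarith
  obtain ⟨τ, hτ, hτ'⟩ := intermediate_value_Icc hT hc ⟨e0.le, e1.le⟩
  refine ⟨τ, ?_, hτ'⟩
  rcases eq_or_lt_of_le hτ.1 with h | h
  · rw [← h] at hτ'
    linarith
  · exact h

/-- choice of the root -/
noncomputable def tau (K a : ℝ) : ℝ :=
  if h : 2 ≤ K ∧ 3 / 4 ≤ a ∧ a ≤ 1 then (exists_tau h.1 h.2.1 h.2.2).choose else 0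

lemma tau_spec {K : ℝ} (hK : 2 ≤ K) (h1 : 3 / 4 ≤ a) (h2 : a ≤ 1) :
    0 < tau K a ∧ Psi a (tau K a) = K := by
  unfold tau
  rw [dif_pos ⟨hK, h1, h2⟩]
  exact (exists_tau hK h1 h2).choose_spec

lemma tau_cont {K : ℝ} (hK : 2 ≤ K) : ContinuousOn (tau K) (Icc (3 / 4) 1) := by
  intro a0 ha0
  obtain ⟨h1, h2⟩ := ha0
  obtain ⟨hp, he⟩ := tau_spec hK h1 h2
  have key : ∀ t : ℝ, 0 ≤ t → ContinuousWithinAt (fun a => Psi a t) (Icc (3 / 4) 1) a0 := by
    intro t ht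
    refine (Psi_cont.comp (f := fun a : ℝ => ((a, t) : ℝ × ℝ)) (s := Icc (3 / 4) 1)
      (by fun_prop) ?_) a0 ⟨h1, h2⟩
    intro a ha
    exact ⟨ha, ht⟩
  rw [ContinuousWithinAt, Metric.tendsto_nhds]
  intro ε hε
  obtain ⟨ε', hε', h3⟩ : ∃ ε', ε' = min ε (tau K a0) ∧ 0 < ε' := ⟨_, rfl, lt_min hε hp⟩
  have le1 : ε' ≤ ε := by rw [hε']; exact min_le_left _ _
  have le2 : ε' ≤ tau K a0 := by rw [hε']; exact min_le_right _ _
  have c1 := key (tau K a0 - ε' / 2) (by linarith)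
  have c2 := key (tau K a0 + ε' / 2) (by linarith)
  have m1 : Psi a0 (tau K a0 - ε' / 2) < K := by
    have := Psi_mono h1 h2 (τ1 := tau K a0 - ε' / 2) (τ2 := tau K a0) (by linarith) (by linarith)
    linarith
  have m2 : K < Psi a0 (tau K a0 + ε' / 2) := by
    have := Psi_mono h1 h2 (τ1 := tau K a0) (τ2 := tau K a0 + ε' / 2) (by linarith) (by linarith)
    linarith
  filter_upwards [c1.eventually (gt_mem_nhds m1), c2.eventually (lt_mem_nhds m2),
    self_mem_nhdsWithin] with a r1 r2 ha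
  obtain ⟨hpa, hea⟩ := tau_spec hK ha.1 ha.2
  have q1 : tau K a0 - ε' / 2 < tau K a := by
    by_contra hcon
    push Not at hcon
    rcases eq_or_lt_of_le hcon with h | h
    · rw [← h, hea] at r1; exact lt_irrefl _ r1
    · have := Psi_mono ha.1 ha.2 hpa.le h
      linarith
  have q2 : tau K a < tau K a0 + ε' / 2 := by
    by_contra hcon
    push Not at hcon
    rcases eq_or_lt_of_le hcon with h | h
    · rw [h, hea] at r2; exact lt_irrefl _ r2
    · have := Psi_mono ha.1 ha.2 (by linarith) h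
      linarith
  rw [Real.dist_eq, abs_lt]
  constructor <;> linarith

/-- modulus difference along the branch -/
noncomputable def FF (K a : ℝ) : ℝ :=
  Real.exp (tau K a * cs2 a) - rho a * Real.sqrt (AA a (tau K a) ^ 2 + BB a (tau K a) ^ 2)

lemma FF_cont {K : ℝ} (hK : 2 ≤ K) : ContinuousOn (FF K) (Icc (3 / 4) 1) := by
  unfold FF
  have ht := tau_cont hK
  have hp : ContinuousOn (fun a : ℝ => ((a, tau K a) : ℝ × ℝ)) (Icc (3 / 4) 1) :=
    continuousOn_id.prodMk ht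
  have hm : MapsTo (fun a : ℝ => ((a, tau K a) : ℝ × ℝ)) (Icc (3 / 4) 1) Dm := by
    intro a ha
    exact ⟨ha, mem_Ici.2 (tau_spec hK ha.1 ha.2).1.le⟩
  have d1 : ContinuousOn (fun a => AA a (tau K a)) (Icc (3 / 4) 1) := contOn_AA.comp hp hm
  have d2 : ContinuousOn (fun a => BB a (tau K a)) (Icc (3 / 4) 1) := contOn_BB.comp hp hm
  have d3 := cs2_cont
  have d4 : Continuous rho := by unfold rho; fun_prop
  exact (Real.continuous_exp.comp_continuousOn (ht.mul d3)).sub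
    (d4.continuousOn.mul (Real.continuous_sqrt.comp_continuousOn ((d1.pow 2).add (d2.pow 2))))

lemma FF_one (K : ℝ) : FF K 1 = 1 := by
  unfold FF cs2 rho
  simp

lemma AA_lower {τ : ℝ} (hτ : 1 ≤ τ) :
    Real.exp (-1) * ((Real.exp 1 * τ)⁻¹ ^ 2 / 4) ≤ AA (3 / 4) τ := by
  have hτ0 : 0 < τ := by linarith
  have h1 : (3 / 4 : ℝ) ≤ 3 / 4 := le_rfl
  have h2 : (3 / 4 : ℝ) ≤ 1 := by norm_num
  have hc := cc_ge h1 h2
  have hs2 : (1 : ℝ) ≤ Real.sqrt 2 := by
    rw [show (1 : ℝ) = Real.sqrt 1 by simp]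
    exact Real.sqrt_le_sqrt (by norm_num)
  have hlow : ∀ x ∈ Icc (-Real.log τ - 1) (-Real.log τ),
      Real.exp (-1) * ((Real.exp 1 * τ)⁻¹ ^ 2 / 4) ≤ fA (3 / 4) τ x := by
    intro x hx
    have hx0 : x ≤ 0 := by
      have := Real.log_nonneg hτ
      linarith [hx.2]
    have e1 : τ * Real.exp x ≤ 1 := by
      have : Real.exp x ≤ Real.exp (-Real.log τ) := Real.exp_le_exp.2 hx.2
      rw [Real.exp_neg, Real.exp_log hτ0] at this
      calc τ * Real.exp x ≤ τ * τ⁻¹ := mul_le_mul_of_nonneg_left this hτ0.le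
        _ = 1 := mul_inv_cancel₀ hτ0.ne'
    have e2 : (Real.exp 1 * τ)⁻¹ ≤ Real.exp x := by
      have : Real.exp (-Real.log τ - 1) ≤ Real.exp x := Real.exp_le_exp.2 hx.1
      have h3 : Real.exp (-Real.log τ - 1) = (Real.exp 1 * τ)⁻¹ := by
        rw [Real.exp_sub, Real.exp_neg, Real.exp_log hτ0]
        field_simp
      rwa [h3] at this
    have e3 : (Real.exp 1 * τ)⁻¹ ^ 2 ≤ yy (3 / 4) x ^ 2 := by
      have h3 : Real.exp x ^ 2 ≤ yy (3 / 4) x ^ 2 := by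
        unfold yy
        apply pow_le_pow_left₀ (Real.exp_pos _).le
        apply Real.exp_le_exp.2
        linarith
      refine le_trans ?_ h3
      apply pow_le_pow_left₀ (by positivity) e2
    have e4 : yy (3 / 4) x ≤ 1 := by
      unfold yy
      rw [Real.exp_le_one_iff]; linarith
    have e5 : NN (3 / 4) x ≤ 4 := by
      unfold NN
      have h3 := yy_pos (3 / 4) x
      have h4 := cc_le (3 / 4)
      have h5 : cc (3 / 4) ^ 2 ≤ 1 := by
        have := cc_pos h1 h2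
        nlinarith
      have h6 : yy (3 / 4) x ^ 2 ≤ 1 := by nlinarith
      have h7 : 0 ≤ yy (3 / 4) x ^ 2 := sq_nonneg _
      nlinarith [mul_nonneg (sub_nonneg.2 h5) h7]
    have e6 := NN_pos h1 h2 x
    unfold fA
    apply mul_le_mul
    · apply Real.exp_le_exp.2; linarith
    · apply div_le_div₀ _ _ e6 e5
      · have := cc_pos h1 h2
        positivity
      · have : 1 ≤ 2 * cc (3 / 4) := by linarith
        nlinarith [sq_nonneg (yy (3 / 4) x)]
    · positivity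
    · positivity
  have hint := int_fA h1 h2 hτ0.le
  have h3 := setIntegral_ge_of_const_le (μ := volume) measurableSet_Icc (by simp) hlow
    hint.integrableOn
  have h4 : volume.real (Icc (-Real.log τ - 1) (-Real.log τ)) = 1 := by
    rw [measureReal_def, Real.volume_Icc]; simp
  rw [h4, one_smul] at h3
  refine h3.trans ?_
  unfold AA
  exact setIntegral_le_integral hint (Eventually.of_forall fun x => (fA_pos h1 h2 τ x).le)

lemma rho_pos : 0 < rho (3 / 4) := by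
  unfold rho
  have hpi := Real.pi_pos
  have : 0 < Real.sin (Real.pi * (3 / 4)) := by
    apply Real.sin_pos_of_pos_of_lt_pi
    · positivity
    · linarith
  positivity

lemma eventually_small : ∀ᶠ τ : ℝ in atTop,
    Real.exp (-(τ / 2)) < rho (3 / 4) * (Real.exp (-1) * ((Real.exp 1 * τ)⁻¹ ^ 2 / 4)) := by
  have h1 := (Real.tendsto_pow_mul_exp_neg_atTop_nhds_zero 2).comp
    (tendsto_id.atTop_div_const (α := ℝ) (r := 2) two_pos)
  have hr := rho_pos
  have hc : 0 < rho (3 / 4) * (Real.exp (-1) * ((Real.exp 1)⁻¹ ^ 2 / 16)) := by positivity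
  filter_upwards [h1.eventually (gt_mem_nhds hc), eventually_gt_atTop 0] with τ h2 h3
  simp only [Function.comp, id] at h2
  have e : rho (3 / 4) * (Real.exp (-1) * ((Real.exp 1 * τ)⁻¹ ^ 2 / 4)) =
      rho (3 / 4) * (Real.exp (-1) * ((Real.exp 1)⁻¹ ^ 2 / 16)) * (4 / τ ^ 2) := by
    rw [mul_inv]; field_simp; ring
  rw [e]
  have e2 : Real.exp (-(τ / 2)) = ((τ / 2) ^ 2 * Real.exp (-(τ / 2))) * (4 / τ ^ 2) := by
    field_simp; ring
  rw [e2]
  exact mul_lt_mul_of_pos_right h2 (by positivity)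

lemma exists_K : ∃ n : ℕ, 2 ≤ (n : ℝ) * (2 * Real.pi) ∧ FF ((n : ℝ) * (2 * Real.pi)) (3 / 4) < 0 := by
  obtain ⟨T, hT⟩ := eventually_atTop.1 eventually_small
  obtain ⟨n, hn⟩ := exists_nat_ge (max T 1)
  have hn1 : T ≤ n := (le_max_left _ _).trans hn
  have hn2 : (1 : ℝ) ≤ n := (le_max_right _ _).trans hn
  have hpi := Real.pi_gt_three
  have hpi4 := Real.pi_lt_four
  have hK : 2 ≤ (n : ℝ) * (2 * Real.pi) := by nlinarith
  refine ⟨n, hK, ?_⟩
  have h1 : (3 / 4 : ℝ) ≤ 3 / 4 := le_rfl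
  have h2 : (3 / 4 : ℝ) ≤ 1 := by norm_num
  obtain ⟨hp, he⟩ := tau_spec hK h1 h2
  obtain ⟨t, ht⟩ : ∃ t, t = tau ((n : ℝ) * (2 * Real.pi)) (3 / 4) := ⟨_, rfl⟩
  unfold FF
  rw [← ht] at hp he ⊢
  have hge : (n : ℝ) ≤ t := by
    unfold Psi psi at he
    have h3 := Real.neg_pi_div_two_lt_arctan (BB (3 / 4) t / AA (3 / 4) t)
    have h4 := sn2_le (3 / 4)
    nlinarith
  have h5 := hT t (by linarith)
  have h6 := AA_lower (τ := t) (by linarith)
  have hcs : cs2 (3 / 4) = -(1 / 2) := by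
    unfold cs2
    have : Real.pi / (2 * (3 / 4)) = Real.pi - Real.pi / 3 := by ring
    rw [this, Real.cos_pi_sub, Real.cos_pi_div_three]
  have h7 : AA (3 / 4) t ≤ Real.sqrt (AA (3 / 4) t ^ 2 + BB (3 / 4) t ^ 2) := by
    apply Real.le_sqrt_of_sq_le
    nlinarith [sq_nonneg (BB (3 / 4) t)]
  have h8 : Real.exp (t * cs2 (3 / 4)) = Real.exp (-(t / 2)) := by
    rw [hcs]; congr 1; ring
  rw [h8]
  have h9 : rho (3 / 4) * (Real.exp (-1) * ((Real.exp 1 * t)⁻¹ ^ 2 / 4)) ≤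
      rho (3 / 4) * Real.sqrt (AA (3 / 4) t ^ 2 + BB (3 / 4) t ^ 2) :=
    mul_le_mul_of_nonneg_left (h6.trans h7) rho_pos.le
  linarith

theorem exists_zero : ∃ a : ℝ, 3 / 4 < a ∧ a < 1 ∧ ∃ t : ℝ, 0 < t ∧ MLf a (I * (t : ℂ)) = 0 := by
  obtain ⟨n, hK, hneg⟩ := exists_K
  obtain ⟨K, hKd⟩ : ∃ K, K = (n : ℝ) * (2 * Real.pi) := ⟨_, rfl⟩
  rw [← hKd] at hK hneg
  obtain ⟨a, ha, hFa⟩ := intermediate_value_Icc (by norm_num : (3 / 4 : ℝ) ≤ 1) (FF_cont hK)
    ⟨hneg.le, by rw [FF_one]; norm_num⟩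
  have ha1 : a < 1 := by
    rcases eq_or_lt_of_le ha.2 with h | h
    · rw [h, FF_one] at hFa; norm_num at hFa
    · exact h
  have ha2 : 3 / 4 < a := by
    rcases eq_or_lt_of_le ha.1 with h | h
    · rw [← h] at hFa; linarith
    · exact h
  obtain ⟨hp, he⟩ := tau_spec hK ha.1 ha.2
  refine ⟨a, ha2, ha1, tau K a ^ a, by positivity, ?_⟩
  rw [rep ha.1 ha1 hp]
  unfold FF at hFa
  obtain ⟨τ, hτ⟩ : ∃ τ, τ = tau K a := ⟨_, rfl⟩
  rw [← hτ] at hFa hp he ⊢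
  have hA := AA_pos ha.1 ha.2 hp.le
  obtain ⟨A, hA'⟩ : ∃ A, A = AA a τ := ⟨_, rfl⟩
  obtain ⟨B, hB'⟩ : ∃ B, B = BB a τ := ⟨_, rfl⟩
  have hang : τ * sn2 a = psi a τ + (n : ℝ) * (2 * Real.pi) := by
    unfold Psi at he
    rw [← hKd]; linarith
  unfold psi at hang
  rw [← hA', ← hB'] at hFa hang ⊢
  rw [← hA'] at hA
  have hx : (0 : ℝ) < 1 + (B / A) ^ 2 := by positivity
  obtain ⟨r, hr⟩ : ∃ r, r = Real.sqrt (1 + (B / A) ^ 2) := ⟨_, rfl⟩
  have hr0 : 0 < r := by rw [hr]; exact Real.sqrt_pos.2 hx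
  have hsqrt : Real.sqrt (A ^ 2 + B ^ 2) = A * r := by
    rw [hr]
    have : A ^ 2 + B ^ 2 = A ^ 2 * (1 + (B / A) ^ 2) := by field_simp
    rw [this, Real.sqrt_mul (sq_nonneg A), Real.sqrt_sq hA.le]
  have hcos : Real.cos (τ * sn2 a) = 1 / r := by
    rw [hang, Real.cos_add_nat_mul_two_pi, Real.cos_arctan, hr]
  have hsin : Real.sin (τ * sn2 a) = (B / A) / r := by
    rw [hang, Real.sin_add_nat_mul_two_pi, Real.sin_arctan, hr]
  have hexp : Complex.exp (om a * τ) = (Real.exp (τ * cs2 a) : ℂ) *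
      ((Real.cos (τ * sn2 a) : ℂ) + (Real.sin (τ * sn2 a) : ℂ) * I) := by
    have e1 : om a = (cs2 a : ℂ) + (sn2 a : ℂ) * I := by
      unfold om w0 cs2 sn2
      rw [Complex.exp_mul_I, Complex.ofReal_cos, Complex.ofReal_sin]
    have e2 : om a * τ = ((τ * cs2 a : ℝ) : ℂ) + ((τ * sn2 a : ℝ) : ℂ) * I := by
      rw [e1]; push_cast; ring
    rw [e2, Complex.exp_add, Complex.exp_mul_I, ← Complex.ofReal_exp, ← Complex.ofReal_cos,
      ← Complex.ofReal_sin]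
  have hE : Real.exp (τ * cs2 a) = rho a * (A * r) := by
    rw [← hsqrt]; linarith
  rw [hexp, hcos, hsin, hE]
  have hAc : (A : ℂ) ≠ 0 := by exact_mod_cast hA.ne'
  have hrc : (r : ℂ) ≠ 0 := by exact_mod_cast hr0.ne'
  change (1 / a : ℂ) * (((rho a * (A * r) : ℝ) : ℂ) * (((1 / r : ℝ) : ℂ) +
    ((B / A / r : ℝ) : ℂ) * I) - (rho a : ℂ) * ((A : ℂ) + (B : ℂ) * I)) = 0
  push_cast
  have : ((rho a : ℂ) * ((A : ℂ) * r)) * (1 / (r : ℂ) + (B : ℂ) / A / r * I) =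
      (rho a : ℂ) * ((A : ℂ) + (B : ℂ) * I) := by
    field_simp
  rw [this, sub_self, mul_zero]

end

end Pool.Agent.X216.ML
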