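import Mathlib

/-!
# Kernel of the Mittag-Leffler function on the imaginary axis: definitions and bounds
-/

open MeasureTheory Set Filter Topology

namespace Pool.Agent.X216.ML

/-- `c = -cos (π a)`. -/
noncomputable def cc (a : ℝ) : ℝ := -Real.cos (Real.pi * a)

/-- `y = exp (a x)`. -/
noncomputable def yy (a x : ℝ) : ℝ := Real.exp (a * x)

/-- squared modulus of the denominator -/
noncomputable def NN (a x : ℝ) : ℝ := (yy a x ^ 2 - 1) ^ 2 + 4 * cc a ^ 2 * yy a x ^ 2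

noncomputable def fA (a τ x : ℝ) : ℝ :=
  Real.exp (-(τ * Real.exp x)) * (2 * cc a * yy a x ^ 2 / NN a x)

noncomputable def fB (a τ x : ℝ) : ℝ :=
  Real.exp (-(τ * Real.exp x)) * (yy a x * (yy a x ^ 2 - 1) / NN a x)

noncomputable def AA (a τ : ℝ) : ℝ := ∫ x, fA a τ x
noncomputable def BB (a τ : ℝ) : ℝ := ∫ x, fB a τ x

/-- the dominating function -/
noncomputable def dom (x : ℝ) : ℝ := 8 * (1 + x ^ 2)⁻¹

lemma integrable_dom : Integrable dom := integrable_inv_one_add_sq.const_mul 8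

lemma yy_pos (a x : ℝ) : 0 < yy a x := Real.exp_pos _

lemma cc_ge {a : ℝ} (h1 : 3 / 4 ≤ a) (h2 : a ≤ 1) : Real.sqrt 2 / 2 ≤ cc a := by
  unfold cc
  have hpi := Real.pi_pos
  have h3 : Real.cos (Real.pi * a) ≤ Real.cos (Real.pi - Real.pi / 4) := by
    apply Real.cos_le_cos_of_nonneg_of_le_pi
    · linarith
    · nlinarith
    · nlinarith
  rw [Real.cos_pi_sub, Real.cos_pi_div_four] at h3
  linarith

lemma cc_pos {a : ℝ} (h1 : 3 / 4 ≤ a) (h2 : a ≤ 1) : 0 < cc a := by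
  have := cc_ge h1 h2
  have h3 : (0 : ℝ) < Real.sqrt 2 := by positivity
  linarith

lemma cc_le (a : ℝ) : cc a ≤ 1 := by
  unfold cc
  have := Real.neg_one_le_cos (Real.pi * a)
  linarith

lemma cc_sq {a : ℝ} (h1 : 3 / 4 ≤ a) (h2 : a ≤ 1) : 1 / 2 ≤ cc a ^ 2 := by
  have h := cc_ge h1 h2
  have h3 : (0 : ℝ) ≤ Real.sqrt 2 / 2 := by positivity
  have h4 : (Real.sqrt 2 / 2) ^ 2 = 1 / 2 := by
    rw [div_pow, Real.sq_sqrt (by norm_num)]; norm_num
  rw [← h4]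
  gcongr

lemma NN_ge {a : ℝ} (h1 : 3 / 4 ≤ a) (h2 : a ≤ 1) (x : ℝ) : yy a x ^ 4 + 1 ≤ NN a x := by
  unfold NN
  have h := cc_sq h1 h2
  nlinarith [mul_nonneg (sub_nonneg.2 h) (sq_nonneg (yy a x))]

lemma NN_pos {a : ℝ} (h1 : 3 / 4 ≤ a) (h2 : a ≤ 1) (x : ℝ) : 0 < NN a x := by
  have := NN_ge h1 h2 x
  have h3 := yy_pos a x
  have : 0 < yy a x ^ 4 + 1 := by positivity
  linarith

lemma yy_add_inv {a : ℝ} (h1 : 3 / 4 ≤ a) (x : ℝ) :
    (1 + x ^ 2) / 4 ≤ yy a x + (yy a x)⁻¹ := by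
  have h2 : (yy a x)⁻¹ = Real.exp (-(a * x)) := by
    unfold yy; rw [Real.exp_neg]
  have key : Real.exp (3 / 4 * |x|) ≤ yy a x + (yy a x)⁻¹ := by
    rcases le_total 0 x with h | h
    · rw [abs_of_nonneg h]
      have : Real.exp (3 / 4 * x) ≤ yy a x := by
        unfold yy
        apply Real.exp_le_exp.2
        nlinarith
      have h3 : 0 ≤ (yy a x)⁻¹ := (inv_pos.2 (yy_pos a x)).le
      linarith
    · rw [abs_of_nonpos h]
      have : Real.exp (3 / 4 * -x) ≤ (yy a x)⁻¹ := by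
        rw [h2]
        apply Real.exp_le_exp.2
        nlinarith
      have h3 := yy_pos a x
      linarith
  have h3 := Real.quadratic_le_exp_of_nonneg (x := 3 / 4 * |x|) (by positivity)
  have h4 : |x| ^ 2 = x ^ 2 := sq_abs x
  have h5 : 0 ≤ |x| := abs_nonneg x
  nlinarith

lemma bound_core {y N : ℝ} (hy : 0 < y) (hN : y ^ 4 + 1 ≤ N) :
    y * (y ^ 2 + 1) / N ≤ 2 / (y + y⁻¹) := by
  have hN0 : 0 < N := by
    have : 0 < y ^ 4 + 1 := by positivity
    linarith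
  have h1 : 0 < y + y⁻¹ := by positivity
  rw [div_le_div_iff₀ hN0 h1]
  have : y * (y ^ 2 + 1) * (y + y⁻¹) = (y ^ 2 + 1) ^ 2 := by
    field_simp
  rw [this]
  nlinarith [sq_nonneg (y ^ 2 - 1)]

lemma dom_ge {a : ℝ} (h1 : 3 / 4 ≤ a) (h2 : a ≤ 1) (x : ℝ) :
    yy a x * (yy a x ^ 2 + 1) / NN a x ≤ dom x := by
  refine (bound_core (yy_pos a x) (NN_ge h1 h2 x)).trans ?_
  unfold dom
  have h3 := yy_add_inv h1 x
  have h4 : 0 < 1 + x ^ 2 := by positivity
  have h5 : 0 < yy a x + (yy a x)⁻¹ := by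
    have := yy_pos a x
    positivity
  rw [← div_eq_mul_inv, div_le_div_iff₀ h5 h4]
  linarith

lemma abs_qA {a : ℝ} (h1 : 3 / 4 ≤ a) (h2 : a ≤ 1) (x : ℝ) :
    |2 * cc a * yy a x ^ 2 / NN a x| ≤ dom x := by
  refine le_trans ?_ (dom_ge h1 h2 x)
  have h3 := yy_pos a x
  have h4 := cc_pos h1 h2
  have h5 := NN_pos h1 h2 x
  rw [abs_of_nonneg (by positivity)]
  apply div_le_div_of_nonneg_right _ h5.le
  have h6 := cc_le a
  nlinarith [mul_nonneg h3.le (sq_nonneg (yy a x - 1)), mul_nonneg (sub_nonneg.2 h6) (sq_nonneg (yy a x))]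

lemma abs_qB {a : ℝ} (h1 : 3 / 4 ≤ a) (h2 : a ≤ 1) (x : ℝ) :
    |yy a x * (yy a x ^ 2 - 1) / NN a x| ≤ dom x := by
  refine le_trans ?_ (dom_ge h1 h2 x)
  have h3 := yy_pos a x
  have h5 := NN_pos h1 h2 x
  rw [abs_div, abs_of_pos h5]
  apply div_le_div_of_nonneg_right _ h5.le
  rw [abs_mul, abs_of_pos h3]
  apply mul_le_mul_of_nonneg_left _ h3.le
  rw [abs_le]
  constructor <;> nlinarith [sq_nonneg (yy a x)]

lemma exp_le_one' {τ : ℝ} (hτ : 0 ≤ τ) (x : ℝ) : Real.exp (-(τ * Real.exp x)) ≤ 1 := by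
  rw [Real.exp_le_one_iff]
  have := Real.exp_pos x
  nlinarith [mul_nonneg hτ this.le]

lemma norm_fA {a τ : ℝ} (h1 : 3 / 4 ≤ a) (h2 : a ≤ 1) (hτ : 0 ≤ τ) (x : ℝ) :
    ‖fA a τ x‖ ≤ dom x := by
  unfold fA
  rw [Real.norm_eq_abs, abs_mul, abs_of_pos (Real.exp_pos _)]
  calc _ ≤ 1 * dom x := mul_le_mul (exp_le_one' hτ x) (abs_qA h1 h2 x) (abs_nonneg _) zero_le_one
    _ = dom x := one_mul _

lemma norm_fB {a τ : ℝ} (h1 : 3 / 4 ≤ a) (h2 : a ≤ 1) (hτ : 0 ≤ τ) (x : ℝ) :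
    ‖fB a τ x‖ ≤ dom x := by
  unfold fB
  rw [Real.norm_eq_abs, abs_mul, abs_of_pos (Real.exp_pos _)]
  calc _ ≤ 1 * dom x := mul_le_mul (exp_le_one' hτ x) (abs_qB h1 h2 x) (abs_nonneg _) zero_le_one
    _ = dom x := one_mul _

lemma continuous_yy : Continuous (fun q : ℝ × ℝ => yy q.1 q.2) := by unfold yy; fun_prop
lemma continuous_cc : Continuous cc := by unfold cc; fun_prop

lemma cont_fA {a : ℝ} (h1 : 3 / 4 ≤ a) (h2 : a ≤ 1) (τ : ℝ) : Continuous (fA a τ) := by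
  unfold fA
  have hy : Continuous (yy a) := by unfold yy; fun_prop
  have hN : Continuous (NN a) := by unfold NN; fun_prop
  apply Continuous.mul (by fun_prop)
  exact Continuous.div (by fun_prop) hN (fun x => (NN_pos h1 h2 x).ne')

lemma cont_fB {a : ℝ} (h1 : 3 / 4 ≤ a) (h2 : a ≤ 1) (τ : ℝ) : Continuous (fB a τ) := by
  unfold fB
  have hy : Continuous (yy a) := by unfold yy; fun_prop
  have hN : Continuous (NN a) := by unfold NN; fun_prop
  apply Continuous.mul (by fun_prop)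
  exact Continuous.div (by fun_prop) hN (fun x => (NN_pos h1 h2 x).ne')

lemma int_fA {a τ : ℝ} (h1 : 3 / 4 ≤ a) (h2 : a ≤ 1) (hτ : 0 ≤ τ) : Integrable (fA a τ) :=
  integrable_dom.mono' (cont_fA h1 h2 τ).aestronglyMeasurable
    (Eventually.of_forall (norm_fA h1 h2 hτ))

lemma int_fB {a τ : ℝ} (h1 : 3 / 4 ≤ a) (h2 : a ≤ 1) (hτ : 0 ≤ τ) : Integrable (fB a τ) :=
  integrable_dom.mono' (cont_fB h1 h2 τ).aestronglyMeasurable
    (Eventually.of_forall (norm_fB h1 h2 hτ))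

/-- the parameter domain -/
def Dm : Set (ℝ × ℝ) := Icc (3 / 4) 1 ×ˢ Ici 0

lemma contOn_AA : ContinuousOn (fun q : ℝ × ℝ => AA q.1 q.2) Dm := by
  unfold AA
  apply continuousOn_of_dominated (bound := dom)
  · rintro ⟨a, τ⟩ ⟨⟨h1, h2⟩, _⟩
    exact (cont_fA h1 h2 τ).aestronglyMeasurable
  · rintro ⟨a, τ⟩ ⟨⟨h1, h2⟩, h3⟩
    exact Eventually.of_forall (norm_fA h1 h2 h3)
  · exact integrable_dom
  · apply Eventually.of_forall
    intro x
    unfold fA
    apply ContinuousOn.mul (by fun_prop)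
    apply ContinuousOn.div
    · have := continuous_cc
      unfold yy
      fun_prop
    · have := continuous_cc
      unfold NN yy
      fun_prop
    · rintro ⟨a, τ⟩ ⟨⟨h1, h2⟩, _⟩
      exact (NN_pos h1 h2 x).ne'

lemma contOn_BB : ContinuousOn (fun q : ℝ × ℝ => BB q.1 q.2) Dm := by
  unfold BB
  apply continuousOn_of_dominated (bound := dom)
  · rintro ⟨a, τ⟩ ⟨⟨h1, h2⟩, _⟩
    exact (cont_fB h1 h2 τ).aestronglyMeasurable
  · rintro ⟨a, τ⟩ ⟨⟨h1, h2⟩, h3⟩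
    exact Eventually.of_forall (norm_fB h1 h2 h3)
  · exact integrable_dom
  · apply Eventually.of_forall
    intro x
    unfold fB
    apply ContinuousOn.mul (by fun_prop)
    apply ContinuousOn.div
    · unfold yy
      fun_prop
    · have := continuous_cc
      unfold NN yy
      fun_prop
    · rintro ⟨a, τ⟩ ⟨⟨h1, h2⟩, _⟩
      exact (NN_pos h1 h2 x).ne'

lemma fA_pos {a : ℝ} (h1 : 3 / 4 ≤ a) (h2 : a ≤ 1) (τ x : ℝ) : 0 < fA a τ x := by
  unfold fA
  have h3 := yy_pos a x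
  have h4 := cc_pos h1 h2
  have h5 := NN_pos h1 h2 x
  have := Real.exp_pos (-(τ * Real.exp x))
  positivity

lemma AA_pos {a τ : ℝ} (h1 : 3 / 4 ≤ a) (h2 : a ≤ 1) (hτ : 0 ≤ τ) : 0 < AA a τ := by
  unfold AA
  rw [integral_pos_iff_support_of_nonneg (fun x => (fA_pos h1 h2 τ x).le) (int_fA h1 h2 hτ)]
  have : Function.support (fA a τ) = univ := by
    ext x; simp [(fA_pos h1 h2 τ x).ne']
  rw [this]
  simp

/-- The ratio `B / A` does not increase with `τ`. -/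
lemma ratio_anti {a : ℝ} (h1 : 3 / 4 ≤ a) (h2 : a ≤ 1) {τ1 τ2 : ℝ} (hτ : 0 ≤ τ1) (h : τ1 ≤ τ2) :
    BB a τ2 / AA a τ2 ≤ BB a τ1 / AA a τ1 := by
  have hτ2 : 0 ≤ τ2 := hτ.trans h
  have hA1 := AA_pos h1 h2 hτ
  have hA2 := AA_pos h1 h2 hτ2
  obtain ⟨κ, hκ⟩ : ∃ κ, κ = BB a τ1 / AA a τ1 := ⟨_, rfl⟩
  rw [← hκ, div_le_iff₀ hA2]
  have hκ1 : BB a τ1 - κ * AA a τ1 = 0 := by rw [hκ]; field_simp; ring
  have hc := cc_pos h1 h2
  -- the root
  obtain ⟨u, hu⟩ : ∃ u, u = cc a * κ + Real.sqrt ((cc a * κ) ^ 2 + 1) := ⟨_, rfl⟩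
  have hsq : Real.sqrt ((cc a * κ) ^ 2 + 1) ^ 2 = (cc a * κ) ^ 2 + 1 :=
    Real.sq_sqrt (by positivity)
  have hsq1 : |cc a * κ| < Real.sqrt ((cc a * κ) ^ 2 + 1) := by
    apply Real.lt_sqrt_of_sq_lt
    rw [sq_abs]; linarith
  have hu0 : 0 < u := by
    have := neg_abs_le (cc a * κ)
    rw [hu]; linarith
  have huv : 0 < -(cc a * κ - Real.sqrt ((cc a * κ) ^ 2 + 1)) := by
    have := le_abs_self (cc a * κ)
    linarith
  have hfac : ∀ y : ℝ, y ^ 2 - 1 - 2 * cc a * κ * y =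
      (y - u) * (y + -(cc a * κ - Real.sqrt ((cc a * κ) ^ 2 + 1))) := by
    intro y
    rw [hu]
    nlinarith [hsq]
  obtain ⟨x0, hx0⟩ : ∃ x0, yy a x0 = u := by
    refine ⟨Real.log u / a, ?_⟩
    unfold yy
    have ha : a ≠ 0 := by linarith
    rw [mul_div_cancel₀ _ ha, Real.exp_log hu0]
  have hmono : ∀ x, (Real.exp (-((τ2 - τ1) * Real.exp x)) -
      Real.exp (-((τ2 - τ1) * Real.exp x0))) * (fB a τ1 x - κ * fA a τ1 x) ≤ 0 := by
    intro x
    have e1 : fB a τ1 x - κ * fA a τ1 x = Real.exp (-(τ1 * Real.exp x)) * (yy a x / NN a x) *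
        ((yy a x - u) * (yy a x + -(cc a * κ - Real.sqrt ((cc a * κ) ^ 2 + 1)))) := by
      rw [← hfac]
      unfold fA fB
      field_simp
    have hpos : 0 ≤ Real.exp (-(τ1 * Real.exp x)) * (yy a x / NN a x) := by
      have h3 := yy_pos a x
      have h5 := NN_pos h1 h2 x
      positivity
    have hpos2 : 0 ≤ yy a x + -(cc a * κ - Real.sqrt ((cc a * κ) ^ 2 + 1)) := by
      have h3 := yy_pos a x
      linarith
    rw [e1]
    rcases le_total x x0 with hx | hx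
    · have h3 : yy a x - u ≤ 0 := by
        rw [← hx0]
        have : yy a x ≤ yy a x0 := by
          unfold yy
          apply Real.exp_le_exp.2
          nlinarith
        linarith
      have h4 : 0 ≤ Real.exp (-((τ2 - τ1) * Real.exp x)) -
          Real.exp (-((τ2 - τ1) * Real.exp x0)) := by
        have : Real.exp x ≤ Real.exp x0 := Real.exp_le_exp.2 hx
        have : Real.exp (-((τ2 - τ1) * Real.exp x0)) ≤ Real.exp (-((τ2 - τ1) * Real.exp x)) := by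
          apply Real.exp_le_exp.2
          nlinarith
        linarith
      have h5 : (yy a x - u) * (yy a x + -(cc a * κ - Real.sqrt ((cc a * κ) ^ 2 + 1))) ≤ 0 :=
        mul_nonpos_of_nonpos_of_nonneg h3 hpos2
      exact mul_nonpos_of_nonneg_of_nonpos h4 (mul_nonpos_of_nonneg_of_nonpos hpos h5)
    · have h3 : 0 ≤ yy a x - u := by
        rw [← hx0]
        have : yy a x0 ≤ yy a x := by
          unfold yy
          apply Real.exp_le_exp.2
          nlinarith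
        linarith
      have h4 : Real.exp (-((τ2 - τ1) * Real.exp x)) -
          Real.exp (-((τ2 - τ1) * Real.exp x0)) ≤ 0 := by
        have : Real.exp x0 ≤ Real.exp x := Real.exp_le_exp.2 hx
        have : Real.exp (-((τ2 - τ1) * Real.exp x)) ≤ Real.exp (-((τ2 - τ1) * Real.exp x0)) := by
          apply Real.exp_le_exp.2
          nlinarith
        linarith
      have h5 : 0 ≤ (yy a x - u) * (yy a x + -(cc a * κ - Real.sqrt ((cc a * κ) ^ 2 + 1))) :=
        mul_nonneg h3 hpos2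
      exact mul_nonpos_of_nonpos_of_nonneg h4 (mul_nonneg hpos h5)
  have hpt : ∀ x, fB a τ2 x - κ * fA a τ2 x ≤
      Real.exp (-((τ2 - τ1) * Real.exp x0)) * (fB a τ1 x - κ * fA a τ1 x) := by
    intro x
    have e2 : fB a τ2 x - κ * fA a τ2 x =
        Real.exp (-((τ2 - τ1) * Real.exp x)) * (fB a τ1 x - κ * fA a τ1 x) := by
      have : Real.exp (-(τ2 * Real.exp x)) =
          Real.exp (-((τ2 - τ1) * Real.exp x)) * Real.exp (-(τ1 * Real.exp x)) := by
        rw [← Real.exp_add]; congr 1; ring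
      unfold fA fB
      rw [this]; ring
    rw [e2]
    have := hmono x
    linarith [sub_mul (Real.exp (-((τ2 - τ1) * Real.exp x))) (Real.exp (-((τ2 - τ1) * Real.exp x0)))
      (fB a τ1 x - κ * fA a τ1 x)]
  have hint : BB a τ2 - κ * AA a τ2 ≤
      Real.exp (-((τ2 - τ1) * Real.exp x0)) * (BB a τ1 - κ * AA a τ1) := by
    have i1 := int_fA h1 h2 hτ
    have i2 := int_fA h1 h2 hτ2
    have j1 := int_fB h1 h2 hτ
    have j2 := int_fB h1 h2 hτ2
    have e3 : BB a τ2 - κ * AA a τ2 = ∫ x, (fB a τ2 x - κ * fA a τ2 x) := by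
      rw [integral_sub j2 (i2.const_mul κ), integral_const_mul]; rfl
    have e4 : Real.exp (-((τ2 - τ1) * Real.exp x0)) * (BB a τ1 - κ * AA a τ1) =
        ∫ x, Real.exp (-((τ2 - τ1) * Real.exp x0)) * (fB a τ1 x - κ * fA a τ1 x) := by
      rw [integral_const_mul, integral_sub j1 (i1.const_mul κ), integral_const_mul]; rfl
    rw [e3, e4]
    exact integral_mono (j2.sub (i2.const_mul κ)) ((j1.sub (i1.const_mul κ)).const_mul _) hpt
  rw [hκ1, mul_zero] at hint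
  linarith

end Pool.Agent.X216.ML
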