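import Pool.Agent.X216.ML.Strip
import Pool.Agent.H308R3.B1

/-!
# The integral representation of the Mittag-Leffler function on the imaginary axis
-/

open MeasureTheory Set Filter Topology
open Complex (I)

namespace Pool.Agent.X216.ML

/-- The Mittag-Leffler function. -/
noncomputable def MLf (a : ℝ) (z : ℂ) : ℂ := ∑' k : ℕ, z ^ k / (Real.Gamma (a * k + 1) : ℂ)

lemma gamma_lower {N x : ℝ} (hN : 0 < N) (hx : 0 ≤ x) :
    N ^ x * Real.exp (-(N + 1)) ≤ Real.Gamma (x + 1) := by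
  rw [Real.Gamma_eq_integral (by linarith)]
  have hconv := Real.GammaIntegral_convergent (s := x + 1) (by linarith)
  have hsub : Ioc N (N + 1) ⊆ Ioi (0 : ℝ) := fun t ht => hN.trans ht.1
  have h1 : (volume.real (Ioc N (N + 1))) • (N ^ x * Real.exp (-(N + 1))) ≤
      ∫ t in Ioc N (N + 1), Real.exp (-t) * t ^ (x + 1 - 1) := by
    apply setIntegral_ge_of_const_le measurableSet_Ioc (by simp) _ (hconv.mono_set hsub)
    intro t ht
    rw [mul_comm]
    apply mul_le_mul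
    · apply Real.exp_le_exp.2
      linarith [ht.2]
    · have : x + 1 - 1 = x := by ring
      rw [this]
      exact Real.rpow_le_rpow hN.le ht.1.le hx
    · positivity
    · positivity
  have h2 : volume.real (Ioc N (N + 1)) = 1 := by
    rw [measureReal_def, Real.volume_Ioc]; simp
  rw [h2, one_smul] at h1
  refine h1.trans (setIntegral_mono_set hconv ?_ (LE.le.eventuallyLE hsub))
  filter_upwards [ae_restrict_mem measurableSet_Ioi] with t ht
  have : (0 : ℝ) < t := ht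
  simp only [Pi.zero_apply]
  positivity

section
variable {a s : ℝ}

lemma gamma_pos (ha : 0 < a) (k : ℕ) : 0 < Real.Gamma (a * k + 1) :=
  Real.Gamma_pos_of_pos (by positivity)

lemma term_bound (ha : 0 < a) {R : ℝ} (hR : 0 ≤ R) : ∃ C : ℝ, ∀ (k : ℕ) (z : ℂ), ‖z‖ ≤ R →
    ‖z ^ k / (Real.Gamma (a * k + 1) : ℂ)‖ ≤ C * (1 / 2) ^ k := by
  obtain ⟨N, hN⟩ : ∃ N : ℝ, N = (2 * R + 1) ^ (1 / a) := ⟨_, rfl⟩
  have hN0 : 0 < N := by rw [hN]; positivity
  have hNa : N ^ a = 2 * R + 1 := by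
    rw [hN, ← Real.rpow_mul (by positivity), one_div, inv_mul_cancel₀ ha.ne', Real.rpow_one]
  refine ⟨Real.exp (N + 1), fun k z hz => ?_⟩
  have hG := gamma_lower hN0 (x := a * k) (by positivity)
  have hGp := gamma_pos ha k
  rw [norm_div, norm_pow, Complex.norm_real, Real.norm_eq_abs, abs_of_pos hGp,
    div_le_iff₀ hGp]
  rw [Real.rpow_mul hN0.le, hNa, Real.rpow_natCast] at hG
  have h1 : ‖z‖ ^ k ≤ (1 / 2) ^ k * (2 * R + 1) ^ k := by
    rw [← mul_pow]
    apply pow_le_pow_left₀ (norm_nonneg _)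
    linarith
  have h2 : Real.exp (N + 1) * Real.exp (-(N + 1)) = 1 := by
    rw [← Real.exp_add]; simp
  calc ‖z‖ ^ k ≤ (1 / 2) ^ k * (2 * R + 1) ^ k := h1
    _ = Real.exp (N + 1) * (1 / 2) ^ k * ((2 * R + 1) ^ k * Real.exp (-(N + 1))) := by
        linear_combination (-((1 / 2) ^ k * (2 * R + 1) ^ k)) * h2
    _ ≤ Real.exp (N + 1) * (1 / 2) ^ k * Real.Gamma (a * k + 1) :=
        mul_le_mul_of_nonneg_left hG (by positivity)

lemma continuous_ML (ha : 0 < a) : Continuous (MLf a) := by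
  rw [continuous_iff_continuousAt]
  intro z
  obtain ⟨C, hC⟩ := term_bound ha (R := ‖z‖ + 1) (by positivity)
  have h : ContinuousOn (MLf a) (Metric.ball 0 (‖z‖ + 1)) := by
    unfold MLf
    apply continuousOn_tsum (u := fun k => C * (1 / 2) ^ k)
    · intro k; fun_prop
    · exact (summable_geometric_of_lt_one (by norm_num) (by norm_num)).mul_left C
    · intro k w hw
      apply hC
      simpa using (mem_ball_zero_iff.1 hw).le
  exact h.continuousAt (Metric.isOpen_ball.mem_nhds (by simp))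

/-- the terms of the Laplace transform -/
noncomputable def Fk (a s : ℝ) (k : ℕ) (τ : ℝ) : ℂ :=
  (Real.exp (-(s * τ)) : ℂ) * ((I * ((τ ^ a : ℝ) : ℂ)) ^ k / (Real.Gamma (a * k + 1) : ℂ))

lemma Fk_eq (k : ℕ) {τ : ℝ} (hτ : 0 < τ) : Fk a s k τ =
    (I ^ k / (Real.Gamma (a * k + 1) : ℂ)) *
      ((τ ^ (a * k + 1 - 1) * Real.exp (-(s * τ)) : ℝ) : ℂ) := by
  unfold Fk
  have : τ ^ (a * k + 1 - 1) = (τ ^ a) ^ k := by
    rw [add_sub_cancel_right, Real.rpow_mul hτ.le, Real.rpow_natCast]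
  rw [this, mul_pow]
  push_cast
  ring

lemma real_int (ha : 0 < a) (hs : 0 < s) (k : ℕ) :
    IntegrableOn (fun τ : ℝ => τ ^ (a * k + 1 - 1) * Real.exp (-(s * τ))) (Ioi 0) := by
  have h := integrableOn_rpow_mul_exp_neg_mul_rpow (s := a * k) (p := 1) (b := s)
    (by have : 0 ≤ a * k := by positivity
        linarith) one_pos hs
  refine h.congr_fun (fun τ _ => ?_) measurableSet_Ioi
  simp

lemma Fk_int (ha : 0 < a) (hs : 0 < s) (k : ℕ) : IntegrableOn (Fk a s k) (Ioi 0) := by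
  refine IntegrableOn.congr_fun (((real_int ha hs k).ofReal (𝕜 := ℂ)).const_mul
    (I ^ k / (Real.Gamma (a * k + 1) : ℂ))) (fun τ hτ => ?_) measurableSet_Ioi
  exact (Fk_eq k hτ).symm

lemma Fk_integral (ha : 0 < a) (hs : 0 < s) (k : ℕ) : ∫ τ in Ioi 0, Fk a s k τ =
    ((1 / s : ℝ) : ℂ) * (I * (((1 / s) ^ a : ℝ) : ℂ)) ^ k := by
  have hG := (gamma_pos ha k).ne'
  have hGc : (Real.Gamma (a * k + 1) : ℂ) ≠ 0 := by exact_mod_cast hG
  rw [setIntegral_congr_fun measurableSet_Ioi (fun τ hτ => Fk_eq k hτ), integral_const_mul,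
    integral_complex_ofReal, Real.integral_rpow_mul_exp_neg_mul_Ioi (by positivity) hs]
  have h1s : 0 < 1 / s := by positivity
  rw [Real.rpow_add_one h1s.ne', Real.rpow_mul h1s.le, Real.rpow_natCast, mul_pow]
  push_cast
  field_simp

lemma Fk_norm_integral (ha : 0 < a) (hs : 0 < s) (k : ℕ) : ∫ τ in Ioi 0, ‖Fk a s k τ‖ =
    (1 / s) * ((1 / s) ^ a) ^ k := by
  have hG := gamma_pos ha k
  have e : ∀ τ ∈ Ioi (0 : ℝ), ‖Fk a s k τ‖ = (1 / Real.Gamma (a * k + 1)) *
      (τ ^ (a * k + 1 - 1) * Real.exp (-(s * τ))) := by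
    intro τ hτ
    have hτ' : (0 : ℝ) < τ := hτ
    rw [Fk_eq k hτ, norm_mul, norm_div, norm_pow, Complex.norm_I, one_pow, Complex.norm_real,
      Complex.norm_real, Real.norm_eq_abs, Real.norm_eq_abs, abs_of_pos hG, abs_of_pos (by positivity)]
  rw [setIntegral_congr_fun measurableSet_Ioi e, integral_const_mul,
    Real.integral_rpow_mul_exp_neg_mul_Ioi (by positivity) hs]
  have h1s : 0 < 1 / s := by positivity
  rw [Real.rpow_add_one h1s.ne', Real.rpow_mul h1s.le, Real.rpow_natCast]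
  field_simp

lemma ratio_lt (ha : 0 < a) (hs : 1 < s) : (1 / s) ^ a < 1 := by
  apply Real.rpow_lt_one (by positivity) _ ha
  rw [div_lt_one (by linarith)]; exact hs

lemma laplace_sum (ha : 0 < a) (hs : 1 < s) :
    HasSum (fun k => ((1 / s : ℝ) : ℂ) * (I * (((1 / s) ^ a : ℝ) : ℂ)) ^ k)
      (∫ τ in Ioi 0, ∑' k, Fk a s k τ) := by
  have hs0 : 0 < s := by linarith
  have h := hasSum_integral_of_summable_integral_norm (μ := volume.restrict (Ioi (0 : ℝ)))
    (F := Fk a s) (fun k => Fk_int ha hs0 k) ?_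
  · simpa only [Fk_integral ha hs0] using h
  · simp only [Fk_norm_integral ha hs0]
    exact (summable_geometric_of_lt_one (by positivity) (ratio_lt ha hs)).mul_left _

lemma tsum_Fk (τ : ℝ) : ∑' k, Fk a s k τ =
    (Real.exp (-(s * τ)) : ℂ) * MLf a (I * ((τ ^ a : ℝ) : ℂ)) := by
  unfold Fk MLf
  rw [tsum_mul_left]

lemma laplace_ML (ha : 0 < a) (hs : 1 < s) :
    ∫ τ in Ioi 0, (Real.exp (-(s * τ)) : ℂ) * MLf a (I * ((τ ^ a : ℝ) : ℂ)) =
    ((1 / s : ℝ) : ℂ) * (1 - I * (((1 / s) ^ a : ℝ) : ℂ))⁻¹ := by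
  have h := laplace_sum ha hs
  simp only [tsum_Fk] at h
  refine h.unique ?_
  apply HasSum.mul_left
  apply hasSum_geometric_of_norm_lt_one
  rw [norm_mul, Complex.norm_I, one_mul, Complex.norm_real, Real.norm_eq_abs,
    abs_of_nonneg (by positivity)]
  exact ratio_lt ha hs

lemma int_ML (ha : 0 < a) (hs : 1 < s) :
    IntegrableOn (fun τ : ℝ => (Real.exp (-(s * τ)) : ℂ) * MLf a (I * ((τ ^ a : ℝ) : ℂ)))
      (Ioi 0) := by
  by_contra hcon
  have h0 : ∫ τ in Ioi 0, (Real.exp (-(s * τ)) : ℂ) * MLf a (I * ((τ ^ a : ℝ) : ℂ)) = 0 :=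
    integral_undef hcon
  rw [laplace_ML ha hs] at h0
  rcases mul_eq_zero.1 h0 with h | h
  · have : (1 / s : ℝ) = 0 := by exact_mod_cast h
    have : 0 < 1 / s := by positivity
    linarith
  · rw [inv_eq_zero] at h
    have := congrArg Complex.re h
    simp at this

lemma om_norm : ‖om a‖ = 1 := by
  unfold om
  rw [Complex.norm_exp, w0_re, Real.exp_zero]

lemma om_re_le : (om a).re ≤ 1 := by
  have := Complex.re_le_norm (om a)
  rwa [om_norm] at this

lemma exp_combine (τ : ℝ) : (Real.exp (-(s * τ)) : ℂ) * Complex.exp (om a * τ) =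
    Complex.exp ((om a - s) * τ) := by
  rw [Complex.ofReal_exp, ← Complex.exp_add]
  congr 1
  push_cast; ring

lemma laplace_exp (hs : 1 < s) :
    ∫ τ in Ioi (0 : ℝ), (Real.exp (-(s * τ)) : ℂ) * Complex.exp (om a * τ) = 1 / (s - om a) := by
  have hre : (om a - s).re < 0 := by
    have := om_re_le (a := a)
    simp
    linarith
  simp_rw [exp_combine]
  rw [integral_exp_mul_complex_Ioi hre]
  have hne : om a - (s : ℂ) ≠ 0 := by
    intro h; rw [h] at hre; simp at hre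
  have hne' : (s : ℂ) - om a ≠ 0 := by
    intro h; apply hne; rw [← neg_sub, h, neg_zero]
  simp
  field_simp
  ring

lemma int_exp (hs : 1 < s) :
    IntegrableOn (fun τ : ℝ => (Real.exp (-(s * τ)) : ℂ) * Complex.exp (om a * τ)) (Ioi 0) := by
  have hre : (om a - s).re < 0 := by
    have := om_re_le (a := a)
    simp
    linarith
  simp_rw [exp_combine]
  exact integrableOn_exp_mul_complex_Ioi hre 0

/-- the integral part -/
noncomputable def gg (a τ : ℝ) : ℂ := ∫ x : ℝ, kap a x * (Real.exp (-(τ * Real.exp x)) : ℂ)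

lemma gg_eq (h1 : 3 / 4 ≤ a) (h2 : a ≤ 1) {τ : ℝ} (hτ : 0 ≤ τ) :
    gg a τ = -((Real.sin (Real.pi * a) / Real.pi : ℝ) : ℂ) * ((AA a τ : ℂ) + (BB a τ : ℂ) * I) := by
  unfold gg
  have e : ∀ x : ℝ, kap a x * (Real.exp (-(τ * Real.exp x)) : ℂ) =
      -((Real.sin (Real.pi * a) / Real.pi : ℝ) : ℂ) * ((fA a τ x : ℂ) + (fB a τ x : ℂ) * I) := by
    intro x
    unfold kap fA fB qA qB
    push_cast
    ring
  simp_rw [e]
  have i1 : Integrable (fun x => (fA a τ x : ℂ)) := (int_fA h1 h2 hτ).ofReal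
  have i2 : Integrable (fun x => (fB a τ x : ℂ)) := (int_fB h1 h2 hτ).ofReal
  rw [integral_const_mul, integral_add i1 (i2.mul_const I), integral_mul_const,
    integral_complex_ofReal, integral_complex_ofReal]
  rfl

lemma int_prod (h1 : 3 / 4 ≤ a) (h2 : a ≤ 1) (hs : 0 < s) :
    Integrable (Function.uncurry fun (τ x : ℝ) => (Real.exp (-(s * τ)) : ℂ) *
      (kap a x * (Real.exp (-(τ * Real.exp x)) : ℂ)))
      ((volume.restrict (Ioi (0 : ℝ))).prod volume) := by
  have hexp : Integrable (fun τ : ℝ => Real.exp (-(s * τ))) (volume.restrict (Ioi (0 : ℝ))) := by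
    have : IntegrableOn (fun τ : ℝ => Real.exp (-(s * τ))) (Ioi (0 : ℝ)) := by
      simpa [neg_mul] using exp_neg_integrableOn_Ioi 0 hs
    exact this
  have hb := hexp.mul_prod (int_kap h1 h2).norm
  refine hb.mono' ?_ ?_
  · apply Continuous.aestronglyMeasurable
    have := cont_kap h1 h2
    unfold Function.uncurry
    fun_prop
  · have hmem : ∀ᵐ q : ℝ × ℝ ∂((volume.restrict (Ioi (0 : ℝ))).prod volume), q.1 ∈ Ioi (0 : ℝ) := by
      have h3 : ∀ᵐ τ : ℝ ∂(volume.restrict (Ioi (0 : ℝ))), τ ∈ Ioi (0 : ℝ) :=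
        ae_restrict_mem measurableSet_Ioi
      exact Measure.quasiMeasurePreserving_fst.ae h3
    filter_upwards [hmem] with q hq
    have hq' : 0 < q.1 := hq
    simp only [Function.uncurry]
    rw [norm_mul, norm_mul, Complex.norm_real, Complex.norm_real, Real.norm_eq_abs,
      Real.norm_eq_abs, abs_of_pos (Real.exp_pos _), abs_of_pos (Real.exp_pos _)]
    apply mul_le_mul_of_nonneg_left _ (Real.exp_pos _).le
    calc ‖kap a q.2‖ * Real.exp (-(q.1 * Real.exp q.2)) ≤ ‖kap a q.2‖ * 1 :=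
          mul_le_mul_of_nonneg_left (exp_le_one' hq'.le _) (norm_nonneg _)
      _ = _ := mul_one _

lemma int_gg (h1 : 3 / 4 ≤ a) (h2 : a ≤ 1) (hs : 0 < s) :
    IntegrableOn (fun τ : ℝ => (Real.exp (-(s * τ)) : ℂ) * gg a τ) (Ioi 0) := by
  have h := (int_prod h1 h2 hs).integral_prod_left
  refine h.congr (Eventually.of_forall fun τ => ?_)
  simp only [Function.uncurry]
  unfold gg
  rw [integral_const_mul]

lemma laplace_gg (h1 : 3 / 4 ≤ a) (h2 : a < 1) (hs : 0 < s) :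
    ∫ τ in Ioi 0, (Real.exp (-(s * τ)) : ℂ) * gg a τ = -I * Ex a s 0 0 := by
  rw [← strip_identity h1 h2 hs]
  have e : ∀ τ : ℝ, (Real.exp (-(s * τ)) : ℂ) * gg a τ = ∫ x : ℝ, (Real.exp (-(s * τ)) : ℂ) *
      (kap a x * (Real.exp (-(τ * Real.exp x)) : ℂ)) := by
    intro τ
    unfold gg
    rw [integral_const_mul]
  simp_rw [e]
  rw [integral_integral_swap (int_prod h1 h2.le hs)]
  congr 1
  funext x
  have hpos : 0 < s + Real.exp x := by
    have := Real.exp_pos x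
    linarith
  have e2 : ∀ τ : ℝ, (Real.exp (-(s * τ)) : ℂ) * (kap a x * (Real.exp (-(τ * Real.exp x)) : ℂ)) =
      kap a x * ((Real.exp (-(s + Real.exp x) * τ) : ℝ) : ℂ) := by
    intro τ
    have : Real.exp (-(s + Real.exp x) * τ) = Real.exp (-(s * τ)) * Real.exp (-(τ * Real.exp x)) := by
      rw [← Real.exp_add]; congr 1; ring
    rw [this]; push_cast; ring
  simp_rw [e2]
  rw [integral_const_mul, integral_complex_ofReal]
  have h3 : ∫ τ in Ioi (0 : ℝ), Real.exp (-(s + Real.exp x) * τ) = 1 / (s + Real.exp x) := by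
    have := Real.integral_rpow_mul_exp_neg_mul_Ioi (a := 1) (r := s + Real.exp x) one_pos hpos
    simp at this
    rw [one_div, ← this]
    congr 1
    funext t
    congr 1; ring
  rw [h3]
  push_cast
  ring

lemma Ex_value (h1 : 3 / 4 ≤ a) (hs : 0 < s) :
    -I * Ex a s 0 0 = ((1 / s : ℝ) : ℂ) * (1 - I * (((1 / s) ^ a : ℝ) : ℂ))⁻¹ -
      (1 / a : ℂ) * (1 / (s - om a)) := by
  have hpi := Real.pi_pos
  have ha0 : a ≠ 0 := by linarith
  have ha : (a : ℂ) ≠ 0 := by exact_mod_cast ha0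
  have hs' : (s : ℂ) ≠ 0 := by exact_mod_cast hs.ne'
  have ho : om a ≠ 0 := Complex.exp_ne_zero _
  have him : (om a).im = Real.sin (Real.pi / (2 * a)) := by
    unfold om w0
    rw [Complex.exp_ofReal_mul_I_im]
  have hsin : 0 < Real.sin (Real.pi / (2 * a)) := by
    apply Real.sin_pos_of_pos_of_lt_pi (half_pos h1)
    have := half_bound h1
    linarith
  have hY : (s : ℂ) - om a ≠ 0 := by
    intro h
    have := congrArg Complex.im h
    simp [him] at this
    linarith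
  obtain ⟨t, ht⟩ : ∃ t : ℝ, t = s ^ a := ⟨_, rfl⟩
  have ht0 : 0 < t := by rw [ht]; positivity
  have htc : (t : ℂ) ≠ 0 := by exact_mod_cast ht0.ne'
  have h3 : Complex.exp (a * (Real.log s : ℂ)) = t := by
    rw [ht, Real.rpow_def_of_pos hs, Complex.ofReal_exp]
    congr 1
    push_cast; ring
  have h4 : ((1 / s) ^ a : ℝ) = t⁻¹ := by
    rw [ht, one_div, Real.inv_rpow hs.le]
  have hX : (t : ℂ) - I ≠ 0 := by
    intro h
    have := congrArg Complex.im h
    simp at this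
  have h5 : (1 : ℂ) - I * ((t⁻¹ : ℝ) : ℂ) = (t - I) / t := by
    push_cast; field_simp
  unfold Ex u1s
  rw [h3, h4, h5, inv_div]
  have hI := Complex.I_ne_zero
  have hI2 : I ^ 2 = -1 := Complex.I_sq
  have hII : I⁻¹ = -I := Complex.inv_I
  push_cast
  simp only [zero_sub, sub_zero]
  have e1 : (1 : ℂ) / (-I * s) = I / s := by
    rw [one_div, mul_inv, inv_neg, hII]; field_simp
  have e2 : om a / (a * I) = -I * om a / a := by
    rw [div_eq_mul_inv, mul_inv, hII]; field_simp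
  rw [e1, e2]
  have hI3 : I ^ 3 = -I := by rw [pow_succ, hI2]; ring
  field_simp
  ring_nf
  simp only [hI3, hI2]
  ring

/-- the difference of the two sides -/
noncomputable def hh (a τ : ℝ) : ℂ :=
  MLf a (I * ((τ ^ a : ℝ) : ℂ)) - (1 / a : ℂ) * Complex.exp (om a * τ) - gg a τ

lemma hh_mul (τ : ℝ) : (Real.exp (-(s * τ)) : ℂ) * hh a τ =
    (Real.exp (-(s * τ)) : ℂ) * MLf a (I * ((τ ^ a : ℝ) : ℂ)) -
    (1 / a : ℂ) * ((Real.exp (-(s * τ)) : ℂ) * Complex.exp (om a * τ)) -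
    (Real.exp (-(s * τ)) : ℂ) * gg a τ := by
  unfold hh; ring

lemma int_hh (h1 : 3 / 4 ≤ a) (h2 : a < 1) (hs : 1 < s) :
    IntegrableOn (fun τ : ℝ => (Real.exp (-(s * τ)) : ℂ) * hh a τ) (Ioi 0) := by
  simp_rw [hh_mul]
  exact ((int_ML (by linarith) hs).sub ((int_exp hs).const_mul _)).sub
    (int_gg h1 h2.le (by linarith))

lemma laplace_hh (h1 : 3 / 4 ≤ a) (h2 : a < 1) (hs : 1 < s) :
    ∫ τ in Ioi 0, (Real.exp (-(s * τ)) : ℂ) * hh a τ = 0 := by
  simp_rw [hh_mul]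
  have i1 := int_ML (a := a) (by linarith) hs
  have i2 := (int_exp (a := a) hs).const_mul (1 / a : ℂ)
  have i3 := int_gg h1 h2.le (s := s) (by linarith)
  have i12 : IntegrableOn (fun τ : ℝ => (Real.exp (-(s * τ)) : ℂ) * MLf a (I * ((τ ^ a : ℝ) : ℂ)) -
    (1 / a : ℂ) * ((Real.exp (-(s * τ)) : ℂ) * Complex.exp (om a * τ))) (Ioi 0) := i1.sub i2
  rw [integral_sub i12 i3, integral_sub i1 i2, integral_const_mul, laplace_exp hs,
    laplace_ML (by linarith) hs, laplace_gg h1 h2 (by linarith), Ex_value h1 (by linarith)]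
  ring

lemma cont_hh (h1 : 3 / 4 ≤ a) (h2 : a < 1) : ContinuousOn (hh a) (Ioi 0) := by
  unfold hh
  have ha : 0 < a := by linarith
  have c1 : Continuous (fun τ : ℝ => MLf a (I * ((τ ^ a : ℝ) : ℂ))) := by
    apply (continuous_ML ha).comp
    have := Real.continuous_rpow_const ha.le
    fun_prop
  have c2 : Continuous (fun τ : ℝ => (1 / a : ℂ) * Complex.exp (om a * τ)) := by fun_prop
  refine (c1.continuousOn.sub c2.continuousOn).sub ?_
  have hsub : ∀ τ ∈ Ioi (0 : ℝ), ((a, τ) : ℝ × ℝ) ∈ Dm := fun τ hτ =>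
    ⟨⟨h1, h2.le⟩, mem_Ici.2 (le_of_lt (mem_Ioi.1 hτ))⟩
  have d1 : ContinuousOn (fun τ : ℝ => AA a τ) (Ioi 0) :=
    contOn_AA.comp (f := fun τ : ℝ => ((a, τ) : ℝ × ℝ)) (by fun_prop) hsub
  have d2 : ContinuousOn (fun τ : ℝ => BB a τ) (Ioi 0) :=
    contOn_BB.comp (f := fun τ : ℝ => ((a, τ) : ℝ × ℝ)) (by fun_prop) hsub
  have d3 : ContinuousOn (fun τ : ℝ => -((Real.sin (Real.pi * a) / Real.pi : ℝ) : ℂ) *
      ((AA a τ : ℂ) + (BB a τ : ℂ) * I)) (Ioi 0) := by fun_prop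
  exact d3.congr (fun τ hτ => gg_eq h1 h2.le (le_of_lt hτ))

lemma part_zero (h1 : 3 / 4 ≤ a) (h2 : a < 1) (L : ℂ →L[ℝ] ℝ) :
    ∀ᵐ τ : ℝ, τ ∈ Ioi (0 : ℝ) → L (hh a τ) = 0 := by
  have key : Pool.Agent.H308R3.B.Adm (fun τ : ℝ =>
      (Ioi (0 : ℝ)).indicator (fun τ => Real.exp (-(2 * τ)) * L (hh a τ)) τ) := by
    constructor
    · rw [integrable_indicator_iff measurableSet_Ioi]
      have := L.integrable_comp (int_hh h1 h2 (s := 2) one_lt_two)
      refine this.congr (Eventually.of_forall fun τ => ?_)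
      simp only []
      rw [← Complex.real_smul, map_smul, smul_eq_mul]
    · intro x hx
      rw [indicator_of_notMem]
      simpa using hx
  have hz := Pool.Agent.H308R3.B.ae_zero_of_moments key ?_
  · filter_upwards [hz] with τ hτ hτ'
    rw [indicator_of_mem hτ'] at hτ
    exact (mul_eq_zero.1 hτ).resolve_left (Real.exp_pos _).ne'
  · intro n
    have hs : (1 : ℝ) < n + 2 := by
      have : (0 : ℝ) ≤ n := Nat.cast_nonneg n
      linarith
    have e : ∀ x : ℝ, Real.exp (-(n * x)) *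
        (Ioi (0 : ℝ)).indicator (fun τ => Real.exp (-(2 * τ)) * L (hh a τ)) x =
        (Ioi (0 : ℝ)).indicator
          (fun τ => L ((Real.exp (-(((n : ℝ) + 2) * τ)) : ℂ) * hh a τ)) x := by
      intro x
      by_cases hx : x ∈ Ioi (0 : ℝ)
      · rw [indicator_of_mem hx, indicator_of_mem hx, ← Complex.real_smul, map_smul, smul_eq_mul,
          ← mul_assoc, ← Real.exp_add]
        congr 2
        ring
      · rw [indicator_of_notMem hx, indicator_of_notMem hx, mul_zero]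
    simp_rw [e]
    rw [integral_indicator measurableSet_Ioi, L.integral_comp_comm (int_hh h1 h2 hs),
      laplace_hh h1 h2 hs, map_zero]

lemma hh_zero (h1 : 3 / 4 ≤ a) (h2 : a < 1) {τ : ℝ} (hτ : 0 < τ) : hh a τ = 0 := by
  have hae : hh a =ᵐ[volume.restrict (Ioi (0 : ℝ))] fun _ => (0 : ℂ) := by
    rw [Filter.EventuallyEq, ae_restrict_iff' measurableSet_Ioi]
    filter_upwards [part_zero h1 h2 Complex.reCLM, part_zero h1 h2 Complex.imCLM] with x r1 r2 hx
    exact Complex.ext (r1 hx) (r2 hx)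
  exact Measure.eqOn_open_of_ae_eq hae isOpen_Ioi (cont_hh h1 h2) continuousOn_const hτ

/-- The integral representation. -/
theorem rep (h1 : 3 / 4 ≤ a) (h2 : a < 1) {τ : ℝ} (hτ : 0 < τ) :
    MLf a (I * ((τ ^ a : ℝ) : ℂ)) = (1 / a : ℂ) * (Complex.exp (om a * τ) -
      ((a * Real.sin (Real.pi * a) / Real.pi : ℝ) : ℂ) * ((AA a τ : ℂ) + (BB a τ : ℂ) * I)) := by
  have h := hh_zero h1 h2 hτ
  unfold hh at h
  rw [gg_eq h1 h2.le hτ.le] at h
  have ha : (a : ℂ) ≠ 0 := by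
    have : a ≠ 0 := by linarith
    exact_mod_cast this
  have h3 : MLf a (I * ((τ ^ a : ℝ) : ℂ)) = (1 / a : ℂ) * Complex.exp (om a * τ) +
      -((Real.sin (Real.pi * a) / Real.pi : ℝ) : ℂ) * ((AA a τ : ℂ) + (BB a τ : ℂ) * I) := by
    linear_combination h
  rw [h3]
  push_cast
  field_simp
  ring

end

end Pool.Agent.X216.ML
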