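import Pool.Agent.X216.ML.Defs

/-!
# The contour identity in logarithmic coordinates
-/

open MeasureTheory Set Filter Topology
open Complex (I)

namespace Pool.Agent.X216.ML

noncomputable def qA (a x : ℝ) : ℝ := 2 * cc a * yy a x ^ 2 / NN a x
noncomputable def qB (a x : ℝ) : ℝ := yy a x * (yy a x ^ 2 - 1) / NN a x

/-- the kernel -/
noncomputable def kap (a x : ℝ) : ℂ :=
  -((Real.sin (Real.pi * a) / Real.pi : ℝ) : ℂ) * ((qA a x : ℂ) + (qB a x : ℂ) * I)

noncomputable def w0 (a : ℝ) : ℂ := ((Real.pi / (2 * a) : ℝ) : ℂ) * I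
noncomputable def om (a : ℝ) : ℂ := Complex.exp (w0 a)

/-- the strip -/
def Strip : Set ℂ := {w | |w.im| < 5 * Real.pi / 4}

lemma isOpen_Strip : IsOpen Strip :=
  isOpen_lt (Complex.continuous_im.abs) continuous_const

lemma dslope_ne {f : ℂ → ℂ} {c : ℂ} {S : Set ℂ} (hd : deriv f c ≠ 0)
    (hinj : ∀ w ∈ S, f w = f c → w = c) : ∀ w ∈ S, dslope f c w ≠ 0 := by
  intro w hw
  by_cases h : w = c
  · rw [h, dslope_same]; exact hd
  · rw [dslope_of_ne _ h, slope_def_field]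
    apply div_ne_zero
    · intro h0
      exact h (hinj w hw (sub_eq_zero.1 h0))
    · exact sub_ne_zero.2 h

lemma diff_dslope {f : ℂ → ℂ} {S : Set ℂ} (hS : IsOpen S) {c : ℂ} (hc : c ∈ S)
    (hf : DifferentiableOn ℂ f S) : DifferentiableOn ℂ (dslope f c) S :=
  (Complex.differentiableOn_dslope (hS.mem_nhds hc)).2 hf

lemma int_zero_of_bounds {t : ℝ} {n : ℤ} (h : t + n * (2 * Real.pi) < 5 * Real.pi / 4)
    (h' : -(5 * Real.pi / 4) < t + n * (2 * Real.pi)) (ht : -(3 * Real.pi / 4) < t)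
    (ht' : t < 3 * Real.pi / 4) : n = 0 := by
  have hpi := Real.pi_pos
  have h1 : (n : ℝ) < 1 := by
    by_contra hcon
    push Not at hcon
    nlinarith
  have h2 : (-1 : ℝ) < n := by
    by_contra hcon
    push Not at hcon
    nlinarith
  have h3 : n < 1 := by exact_mod_cast h1
  have h4 : -1 < n := by exact_mod_cast h2
  omega

section
variable {a s : ℝ}

lemma w0_im : (w0 a).im = Real.pi / (2 * a) := by
  unfold w0; rw [Complex.mul_I_im, Complex.ofReal_re]
lemma w0_re : (w0 a).re = 0 := by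
  unfold w0; rw [Complex.mul_I_re, Complex.ofReal_im, neg_zero]

lemma half_bound (h1 : 3 / 4 ≤ a) : Real.pi / (2 * a) < 3 * Real.pi / 4 := by
  have hpi := Real.pi_pos
  rw [div_lt_iff₀ (by linarith)]
  nlinarith

lemma half_pos (h1 : 3 / 4 ≤ a) : 0 < Real.pi / (2 * a) := by
  have hpi := Real.pi_pos
  have : 0 < a := by linarith
  positivity

lemma w0_mem (h1 : 3 / 4 ≤ a) : w0 a ∈ Strip := by
  change |(w0 a).im| < 5 * Real.pi / 4
  rw [w0_im, abs_of_pos (half_pos h1)]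
  have := half_bound h1
  have hpi := Real.pi_pos
  linarith

lemma real_mem (t : ℝ) : (t : ℂ) ∈ Strip := by
  change |((t : ℂ)).im| < 5 * Real.pi / 4
  simp; positivity

lemma exp_a_w0 (h1 : 3 / 4 ≤ a) : Complex.exp (a * w0 a) = I := by
  have : (a : ℂ) * w0 a = (Real.pi / 2 : ℝ) * I := by
    unfold w0
    have : a * (Real.pi / (2 * a)) = Real.pi / 2 := by
      have : a ≠ 0 := by linarith
      field_simp
    rw [← this]; push_cast; ring
  rw [this]
  push_cast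
  exact Complex.exp_pi_div_two_mul_I

lemma inj_a (h1 : 3 / 4 ≤ a) (h2 : a ≤ 1) {w : ℂ} (hw : w ∈ Strip)
    (h : Complex.exp (a * w) = Complex.exp (a * w0 a)) : w = w0 a := by
  obtain ⟨n, hn⟩ := Complex.exp_eq_exp_iff_exists_int.1 h
  have ha : (a : ℂ) ≠ 0 := by
    have : a ≠ 0 := by linarith
    exact_mod_cast this
  have him := congrArg Complex.im hn
  simp only [Complex.mul_im, Complex.ofReal_re, Complex.ofReal_im, zero_mul, add_zero,
    Complex.add_im, w0_im, w0_re, Complex.intCast_re, Complex.intCast_im, Complex.mul_re,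
    Complex.I_re, Complex.I_im, mul_zero, mul_one, Complex.re_ofNat, Complex.im_ofNat,
    sub_zero] at him
  have hpi := Real.pi_pos
  have e : a * (Real.pi / (2 * a)) = Real.pi / 2 := by
    have : a ≠ 0 := by linarith
    field_simp
  rw [e] at him
  have hw' : |w.im| < 5 * Real.pi / 4 := hw
  have hb := abs_lt.1 hw'
  have hn0 : n = 0 := by
    apply int_zero_of_bounds (t := Real.pi / 2) (n := n)
    · nlinarith [hb.1, hb.2]
    · nlinarith [hb.1, hb.2]
    · linarith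
    · linarith
  rw [hn0] at hn
  simp only [Int.cast_zero, zero_mul, add_zero] at hn
  exact mul_left_cancel₀ ha hn

lemma inj_exp {w v : ℂ} (hw : w ∈ Strip) (hv : -(3 * Real.pi / 4) < v.im)
    (hv' : v.im < 3 * Real.pi / 4) (h : Complex.exp w = Complex.exp v) : w = v := by
  obtain ⟨n, hn⟩ := Complex.exp_eq_exp_iff_exists_int.1 h
  have him := congrArg Complex.im hn
  simp only [Complex.add_im, Complex.mul_im, Complex.intCast_re, Complex.intCast_im,
    Complex.mul_re, Complex.I_re, Complex.I_im, mul_zero, mul_one, Complex.re_ofNat,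
    Complex.im_ofNat, sub_zero, Complex.ofReal_re, Complex.ofReal_im, zero_mul, add_zero] at him
  have hpi := Real.pi_pos
  have hw' : |w.im| < 5 * Real.pi / 4 := hw
  have hb := abs_lt.1 hw'
  have hn0 : n = 0 := by
    apply int_zero_of_bounds (t := v.im) (n := n)
    · linarith [hb.1, hb.2]
    · linarith [hb.1, hb.2]
    · linarith
    · linarith
  rw [hn0] at hn
  simpa using hn

noncomputable def E1 (a : ℝ) : ℂ → ℂ := dslope (fun w => Complex.exp (a * w)) (w0 a)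
noncomputable def E2 (a : ℝ) : ℂ → ℂ := dslope Complex.exp (w0 a)
noncomputable def E3 (s : ℝ) : ℂ → ℂ := dslope Complex.exp (Real.log s : ℂ)

lemma E1_diff (h1 : 3 / 4 ≤ a) : DifferentiableOn ℂ (E1 a) Strip :=
  diff_dslope isOpen_Strip (w0_mem h1) (by fun_prop)
lemma E2_diff (h1 : 3 / 4 ≤ a) : DifferentiableOn ℂ (E2 a) Strip :=
  diff_dslope isOpen_Strip (w0_mem h1) (by fun_prop)
lemma E3_diff : DifferentiableOn ℂ (E3 s) Strip :=
  diff_dslope isOpen_Strip (real_mem _) (by fun_prop)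

lemma deriv_exp_a : deriv (fun w : ℂ => Complex.exp (a * w)) (w0 a) =
    Complex.exp (a * w0 a) * a := by
  have h : HasDerivAt (fun w : ℂ => (a : ℂ) * w) a (w0 a) := by
    simpa using (hasDerivAt_id (w0 a)).const_mul (a : ℂ)
  exact h.cexp.deriv

lemma E1_ne (h1 : 3 / 4 ≤ a) (h2 : a ≤ 1) : ∀ w ∈ Strip, E1 a w ≠ 0 := by
  apply dslope_ne
  · rw [deriv_exp_a]
    apply mul_ne_zero (Complex.exp_ne_zero _)
    have : a ≠ 0 := by linarith
    exact_mod_cast this
  · intro w hw h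
    exact inj_a h1 h2 hw h

lemma E2_ne (h1 : 3 / 4 ≤ a) : ∀ w ∈ Strip, E2 a w ≠ 0 := by
  apply dslope_ne
  · rw [Complex.deriv_exp]; exact Complex.exp_ne_zero _
  · intro w hw h
    apply inj_exp hw _ _ h
    · rw [w0_im]; have := half_pos h1; have hpi := Real.pi_pos; linarith
    · rw [w0_im]; exact half_bound h1

lemma E3_ne : ∀ w ∈ Strip, E3 s w ≠ 0 := by
  have hpi := Real.pi_pos
  apply dslope_ne
  · rw [Complex.deriv_exp]; exact Complex.exp_ne_zero _
  · intro w hw h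
    apply inj_exp hw _ _ h
    · simp; positivity
    · simp; positivity

noncomputable def MM (a : ℝ) (w : ℂ) : ℂ := (E1 a w)⁻¹ - (om a / (a * I)) * (E2 a w)⁻¹
noncomputable def u1 (a : ℝ) : ℂ → ℂ := dslope (MM a) (w0 a)

lemma MM_diff (h1 : 3 / 4 ≤ a) (h2 : a ≤ 1) : DifferentiableOn ℂ (MM a) Strip := by
  unfold MM
  exact ((E1_diff h1).inv (E1_ne h1 h2)).sub (((E2_diff h1).inv (E2_ne h1)).const_mul _)

lemma u1_diff (h1 : 3 / 4 ≤ a) (h2 : a ≤ 1) : DifferentiableOn ℂ (u1 a) Strip :=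
  diff_dslope isOpen_Strip (w0_mem h1) (MM_diff h1 h2)

lemma MM_w0 (h1 : 3 / 4 ≤ a) : MM a (w0 a) = 0 := by
  unfold MM E1 E2
  rw [dslope_same, dslope_same, deriv_exp_a, Complex.deriv_exp, exp_a_w0 h1]
  have ha : (a : ℂ) ≠ 0 := by
    have : a ≠ 0 := by linarith
    exact_mod_cast this
  have ho : Complex.exp (w0 a) ≠ 0 := Complex.exp_ne_zero _
  unfold om
  have hI := Complex.I_ne_zero
  field_simp
  ring

lemma u1_eq (h1 : 3 / 4 ≤ a) {w : ℂ} (hw : w ≠ w0 a) :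
    u1 a w = 1 / (Complex.exp (a * w) - I) - (om a / (a * I)) / (Complex.exp w - om a) := by
  have hww : w - w0 a ≠ 0 := sub_ne_zero.2 hw
  unfold u1
  rw [dslope_of_ne _ hw, slope_def_field, MM_w0 h1, sub_zero]
  unfold MM E1 E2
  rw [dslope_of_ne _ hw, dslope_of_ne _ hw, slope_def_field, slope_def_field, exp_a_w0 h1]
  rw [inv_div, inv_div]
  have hE2 : Complex.exp (w0 a) = om a := rfl
  rw [hE2, div_eq_mul_inv (w - w0 a), div_eq_mul_inv (w - w0 a), div_eq_mul_inv 1,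
    div_eq_mul_inv _ (Complex.exp w - om a)]
  generalize (Complex.exp (↑a * w) - I)⁻¹ = X
  generalize (Complex.exp w - om a)⁻¹ = Y
  generalize om a / (↑a * I) = Z
  field_simp

noncomputable def Phi (a s : ℝ) (w : ℂ) : ℂ := -(dslope (u1 a) (Real.log s : ℂ) w) / E3 s w

lemma Phi_diff (h1 : 3 / 4 ≤ a) (h2 : a ≤ 1) : DifferentiableOn ℂ (Phi a s) Strip := by
  unfold Phi
  exact ((diff_dslope isOpen_Strip (real_mem _) (u1_diff h1 h2)).neg).div E3_diff E3_ne

noncomputable def u1s (a s : ℝ) : ℂ :=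
  1 / (Complex.exp (a * (Real.log s : ℂ)) - I) - (om a / (a * I)) / ((s : ℂ) - om a)

noncomputable def Ex (a s : ℝ) (p q : ℂ) : ℂ :=
  1 / ((p - I) * (s - q)) - (om a / (a * I)) / ((q - om a) * (s - q)) - u1s a s / (s - q)

lemma exp_log (hs : 0 < s) : Complex.exp (Real.log s : ℂ) = s := by
  rw [← Complex.ofReal_exp, Real.exp_log hs]

lemma log_ne_w0 (h1 : 3 / 4 ≤ a) : (Real.log s : ℂ) ≠ w0 a := by
  intro h
  have := congrArg Complex.im h
  rw [w0_im, Complex.ofReal_im] at this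
  have := half_pos h1
  linarith

lemma Phi_eq (h1 : 3 / 4 ≤ a) (hs : 0 < s) {w : ℂ} (hw : w ≠ w0 a)
    (hw' : w ≠ (Real.log s : ℂ)) :
    Phi a s w = Ex a s (Complex.exp (a * w)) (Complex.exp w) := by
  have hww : w - (Real.log s : ℂ) ≠ 0 := sub_ne_zero.2 hw'
  unfold Phi E3
  rw [dslope_of_ne _ hw', dslope_of_ne _ hw', slope_def_field, slope_def_field, exp_log hs,
    u1_eq h1 hw, u1_eq h1 (log_ne_w0 h1), exp_log hs]
  change _ = 1 / ((Complex.exp (↑a * w) - I) * (↑s - Complex.exp w)) -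
    (om a / (a * I)) / ((Complex.exp w - om a) * (↑s - Complex.exp w)) -
    u1s a s / (↑s - Complex.exp w)
  have hU : 1 / (Complex.exp (a * (Real.log s : ℂ)) - I) - (om a / (a * I)) / ((s : ℂ) - om a) =
    u1s a s := rfl
  rw [hU]
  have hv : (s : ℂ) - Complex.exp w = -(Complex.exp w - s) := by ring
  generalize om a / (↑a * I) = Z0
  rw [hv, ← neg_div, div_div_div_cancel_right₀ hww, ← div_div, ← div_div]
  generalize 1 / (Complex.exp (↑a * w) - I) = X
  generalize Z0 / (Complex.exp w - om a) = Y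
  generalize u1s a s = Z
  rw [div_neg, div_neg, div_neg]
  ring

/-- Cauchy on the rectangle. -/
lemma rect (h1 : 3 / 4 ≤ a) (h2 : a ≤ 1) (R : ℝ) :
    (((∫ x : ℝ in -R..R, Phi a s (x + (-Real.pi : ℝ) * I)) -
      ∫ x : ℝ in -R..R, Phi a s (x + (Real.pi : ℝ) * I)) +
      I * ∫ y : ℝ in -Real.pi..Real.pi, Phi a s (R + y * I)) -
      I * ∫ y : ℝ in -Real.pi..Real.pi, Phi a s ((-R : ℝ) + y * I) = 0 := by
  have h := Complex.integral_boundary_rect_eq_zero_of_differentiableOn (Phi a s)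
    ⟨-R, -Real.pi⟩ ⟨R, Real.pi⟩ ?_
  · simpa [smul_eq_mul] using h
  · apply (Phi_diff h1 h2).mono
    intro w hw
    have hpi := Real.pi_pos
    have him := hw.2
    simp only [mem_preimage] at him
    rw [uIcc_of_le (by linarith)] at him
    change |w.im| < 5 * Real.pi / 4
    rw [abs_lt]
    constructor <;> linarith [him.1, him.2]

lemma line_mem {t : ℝ} (ht : |t| ≤ Real.pi) (x : ℝ) : (x : ℂ) + (t : ℂ) * I ∈ Strip := by
  change |((x : ℂ) + (t : ℂ) * I).im| < 5 * Real.pi / 4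
  have hpi := Real.pi_pos
  simp
  linarith

lemma cont_hor {t : ℝ} (h1 : 3 / 4 ≤ a) (h2 : a ≤ 1) (ht : |t| ≤ Real.pi) :
    Continuous (fun x : ℝ => Phi a s ((x : ℂ) + (t : ℂ) * I)) := by
  have h := (Phi_diff (s := s) h1 h2).continuousOn
  exact h.comp_continuous (by fun_prop) (fun x => line_mem ht x)

lemma cont_vert (h1 : 3 / 4 ≤ a) (h2 : a ≤ 1) (R : ℝ) :
    ContinuousOn (fun y : ℝ => Phi a s ((R : ℂ) + (y : ℂ) * I)) (Icc (-Real.pi) Real.pi) := by
  have h := (Phi_diff (s := s) h1 h2).continuousOn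
  apply h.comp (by fun_prop)
  intro y hy
  exact line_mem (abs_le.2 hy) R

lemma int_vert (h1 : 3 / 4 ≤ a) (h2 : a ≤ 1) (R : ℝ) :
    IntervalIntegrable (fun y : ℝ => Phi a s ((R : ℂ) + (y : ℂ) * I)) volume
      (-Real.pi) Real.pi := by
  apply ContinuousOn.intervalIntegrable
  rw [uIcc_of_le (by linarith [Real.pi_pos])]
  exact cont_vert h1 h2 R

lemma vert_lim (f : ℝ → ℝ → ℂ) (L : ℂ)
    (hI : ∀ R, IntervalIntegrable (f R) volume (-Real.pi) Real.pi)
    (h : ∀ ε > 0, ∀ᶠ R in atTop, ∀ y, ‖f R y - L‖ ≤ ε) :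
    Tendsto (fun R => ∫ y in -Real.pi..Real.pi, f R y) atTop (𝓝 ((2 * Real.pi) * L)) := by
  have hpi := Real.pi_pos
  rw [Metric.tendsto_nhds]
  intro ε hε
  have hε' : 0 < ε / (4 * Real.pi) := by positivity
  filter_upwards [h _ hε'] with R hR
  have e : (∫ y in -Real.pi..Real.pi, f R y) - (2 * Real.pi) * L =
      ∫ y in -Real.pi..Real.pi, (f R y - L) := by
    rw [intervalIntegral.integral_sub (hI R) (by simp), intervalIntegral.integral_const,
      Complex.real_smul]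
    push_cast
    ring
  rw [dist_eq_norm, e]
  calc _ ≤ ε / (4 * Real.pi) * |Real.pi - -Real.pi| :=
        intervalIntegral.norm_integral_le_of_norm_le_const (fun y _ => hR y)
    _ = ε / 2 := by
        rw [abs_of_pos (by linarith)]; field_simp; ring
    _ < ε := by linarith

/-- `Ex` in inverted coordinates -/
noncomputable def Gx (a s : ℝ) (P Q : ℂ) : ℂ :=
  P * Q / ((1 - I * P) * (s * Q - 1)) -
    (om a / (a * I)) * (Q * Q / ((1 - om a * Q) * (s * Q - 1))) - u1s a s * (Q / (s * Q - 1))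

lemma Ex_eq_Gx {P Q : ℂ} (hP : P ≠ 0) (hQ : Q ≠ 0) : Ex a s P⁻¹ Q⁻¹ = Gx a s P Q := by
  unfold Ex Gx
  have e1 : P⁻¹ - I = (1 - I * P) / P := by field_simp
  have e2 : (s : ℂ) - Q⁻¹ = (s * Q - 1) / Q := by field_simp
  have e3 : Q⁻¹ - om a = (1 - om a * Q) / Q := by field_simp
  rw [e1, e2, e3, div_mul_div_comm, div_mul_div_comm, one_div_div, div_div_eq_mul_div,
    div_div_eq_mul_div, mul_div_assoc, mul_div_assoc]
  ring

lemma Ex_cont (hs : 0 < s) : ContinuousAt (fun q : ℂ × ℂ => Ex a s q.1 q.2) (0, 0) := by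
  have hs' : (s : ℂ) ≠ 0 := by exact_mod_cast hs.ne'
  have ho : om a ≠ 0 := Complex.exp_ne_zero _
  unfold Ex
  refine ((ContinuousAt.div (by fun_prop) (by fun_prop) ?_).sub
    (ContinuousAt.div (by fun_prop) (by fun_prop) ?_)).sub
    (ContinuousAt.div (by fun_prop) (by fun_prop) ?_)
  · simp [hs', Complex.I_ne_zero]
  · simp [hs', ho]
  · simpa using hs'

lemma Gx_cont : ContinuousAt (fun q : ℂ × ℂ => Gx a s q.1 q.2) (0, 0) := by
  unfold Gx
  refine ((ContinuousAt.div (by fun_prop) (by fun_prop) ?_).sub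
    (ContinuousAt.mul (by fun_prop) (ContinuousAt.div (by fun_prop) (by fun_prop) ?_))).sub
    (ContinuousAt.mul (by fun_prop) (ContinuousAt.div (by fun_prop) (by fun_prop) ?_)) <;> simp

lemma norm_exp_line (c R y : ℝ) : ‖Complex.exp ((c : ℂ) * ((R : ℂ) + (y : ℂ) * I))‖ =
    Real.exp (c * R) := by
  rw [Complex.norm_exp]
  simp

lemma norm_exp_line' (R y : ℝ) : ‖Complex.exp ((R : ℂ) + (y : ℂ) * I)‖ =
    Real.exp R := by
  rw [Complex.norm_exp]
  simp

lemma line_ne {R : ℝ} (hR : |Real.log s| < |R|) (y : ℝ) :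
    ((R : ℂ) + (y : ℂ) * I) ≠ w0 a ∧ ((R : ℂ) + (y : ℂ) * I) ≠ (Real.log s : ℂ) := by
  constructor
  · intro h
    have := congrArg Complex.re h
    rw [w0_re] at this
    simp at this
    rw [this, abs_zero] at hR
    exact absurd (abs_nonneg _) (not_le.2 hR)
  · intro h
    have := congrArg Complex.re h
    simp at this
    rw [this] at hR
    exact lt_irrefl _ hR

lemma lim_left (h1 : 3 / 4 ≤ a) (h2 : a ≤ 1) (hs : 0 < s) :
    Tendsto (fun R : ℝ => ∫ y : ℝ in -Real.pi..Real.pi, Phi a s ((-R : ℝ) + y * I)) atTop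
      (𝓝 ((2 * Real.pi) * Ex a s 0 0)) := by
  apply vert_lim (fun R y => Phi a s ((-R : ℝ) + y * I))
  · intro R
    exact int_vert h1 h2 (-R)
  · intro ε hε
    obtain ⟨δ, hδ, hδ'⟩ := Metric.continuousAt_iff.1 (Ex_cont (a := a) hs) ε hε
    have t1 : Tendsto (fun R : ℝ => Real.exp (a * -R)) atTop (𝓝 0) := by
      apply Real.tendsto_exp_atBot.comp
      have ha : 0 < a := by linarith
      exact (tendsto_neg_atTop_atBot).const_mul_atBot ha
    have t2 : Tendsto (fun R : ℝ => Real.exp (-R)) atTop (𝓝 0) :=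
      Real.tendsto_exp_atBot.comp tendsto_neg_atTop_atBot
    filter_upwards [t1.eventually (gt_mem_nhds hδ), t2.eventually (gt_mem_nhds hδ),
      eventually_gt_atTop |Real.log s|] with R r1 r2 r3 y
    have r4 : |Real.log s| < |-R| := by
      rw [abs_neg]
      exact r3.trans_le (le_abs_self R)
    obtain ⟨k1, k2⟩ := line_ne (a := a) (s := s) r4 y
    rw [Phi_eq h1 hs k1 k2]
    have := hδ' (x := (Complex.exp (↑a * (((-R : ℝ) : ℂ) + ↑y * I)),
      Complex.exp (((-R : ℝ) : ℂ) + ↑y * I))) ?_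
    · rw [dist_eq_norm] at this
      exact this.le
    · rw [Prod.dist_eq, max_lt_iff, dist_zero_right, dist_zero_right, norm_exp_line,
        norm_exp_line']
      exact ⟨r1, r2⟩

lemma lim_right (h1 : 3 / 4 ≤ a) (h2 : a ≤ 1) (hs : 0 < s) :
    Tendsto (fun R : ℝ => ∫ y : ℝ in -Real.pi..Real.pi, Phi a s ((R : ℝ) + y * I)) atTop
      (𝓝 ((2 * Real.pi) * 0)) := by
  apply vert_lim (fun R y => Phi a s ((R : ℝ) + y * I))
  · intro R
    exact int_vert h1 h2 R
  · intro ε hε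
    obtain ⟨δ, hδ, hδ'⟩ := Metric.continuousAt_iff.1 (Gx_cont (a := a) (s := s)) ε hε
    have t1 : Tendsto (fun R : ℝ => Real.exp (a * -R)) atTop (𝓝 0) := by
      apply Real.tendsto_exp_atBot.comp
      have ha : 0 < a := by linarith
      exact (tendsto_neg_atTop_atBot).const_mul_atBot ha
    have t2 : Tendsto (fun R : ℝ => Real.exp (-R)) atTop (𝓝 0) :=
      Real.tendsto_exp_atBot.comp tendsto_neg_atTop_atBot
    filter_upwards [t1.eventually (gt_mem_nhds hδ), t2.eventually (gt_mem_nhds hδ),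
      eventually_gt_atTop |Real.log s|] with R r1 r2 r3 y
    have r4 : |Real.log s| < |R| := r3.trans_le (le_abs_self R)
    obtain ⟨k1, k2⟩ := line_ne (a := a) (s := s) r4 y
    rw [Phi_eq h1 hs k1 k2]
    have hinv1 : Complex.exp (↑a * ((R : ℂ) + ↑y * I)) =
        (Complex.exp (↑a * (((-R : ℝ) : ℂ) + ((-y : ℝ) : ℂ) * I)))⁻¹ := by
      rw [← Complex.exp_neg]; congr 1; push_cast; ring
    have hinv2 : Complex.exp ((R : ℂ) + ↑y * I) =
        (Complex.exp (((-R : ℝ) : ℂ) + ((-y : ℝ) : ℂ) * I))⁻¹ := by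
      rw [← Complex.exp_neg]; congr 1; push_cast; ring
    rw [hinv1, hinv2, Ex_eq_Gx (Complex.exp_ne_zero _) (Complex.exp_ne_zero _)]
    have := hδ' (x := (Complex.exp (↑a * (((-R : ℝ) : ℂ) + ((-y : ℝ) : ℂ) * I)),
      Complex.exp (((-R : ℝ) : ℂ) + ((-y : ℝ) : ℂ) * I))) ?_
    · have h0 : Gx a s 0 0 = 0 := by simp [Gx]
      simp only [h0, dist_zero_right] at this
      rw [sub_zero]
      exact this.le
    · rw [Prod.dist_eq, max_lt_iff, dist_zero_right, dist_zero_right, norm_exp_line,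
        norm_exp_line']
      exact ⟨r1, r2⟩

/-- `exp (a (x ± iπ))`. -/
lemma exp_a_line (x : ℝ) : Complex.exp (a * ((x : ℂ) + (Real.pi : ℝ) * I)) =
    (yy a x : ℂ) * (-(cc a : ℂ) + (Real.sin (Real.pi * a) : ℂ) * I) := by
  have e : (a : ℂ) * ((x : ℂ) + (Real.pi : ℝ) * I) = ((a * x : ℝ) : ℂ) +
      ((Real.pi * a : ℝ) : ℂ) * I := by push_cast; ring
  rw [e, Complex.exp_add, Complex.exp_mul_I, ← Complex.ofReal_exp, ← Complex.ofReal_cos,
    ← Complex.ofReal_sin]
  unfold yy cc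
  push_cast
  ring

lemma exp_a_line' (x : ℝ) : Complex.exp (a * ((x : ℂ) + (-Real.pi : ℝ) * I)) =
    (yy a x : ℂ) * (-(cc a : ℂ) - (Real.sin (Real.pi * a) : ℂ) * I) := by
  have e : (a : ℂ) * ((x : ℂ) + (-Real.pi : ℝ) * I) = ((a * x : ℝ) : ℂ) +
      ((-(Real.pi * a) : ℝ) : ℂ) * I := by push_cast; ring
  rw [e, Complex.exp_add, Complex.exp_mul_I, ← Complex.ofReal_exp, ← Complex.ofReal_cos,
    ← Complex.ofReal_sin, Real.cos_neg, Real.sin_neg]
  unfold yy cc
  push_cast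
  ring

lemma exp_line (x : ℝ) : Complex.exp ((x : ℂ) + (Real.pi : ℝ) * I) = -(Real.exp x : ℂ) := by
  rw [Complex.exp_add, Complex.exp_pi_mul_I]
  push_cast; ring

lemma exp_line' (x : ℝ) : Complex.exp ((x : ℂ) + (-Real.pi : ℝ) * I) = -(Real.exp x : ℂ) := by
  have : (x : ℂ) + (-Real.pi : ℝ) * I = (x : ℂ) + (Real.pi : ℝ) * I - 2 * Real.pi * I := by
    push_cast; ring
  rw [this, Complex.exp_sub, Complex.exp_two_pi_mul_I, div_one, exp_line]

lemma jump_core {y c sn : ℝ} (hy : 0 < y) (hc : 0 < c) (hcs : c ^ 2 + sn ^ 2 = 1) :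
    1 / ((y : ℂ) * (-(c : ℂ) - (sn : ℂ) * I) - I) -
    1 / ((y : ℂ) * (-(c : ℂ) + (sn : ℂ) * I) - I) =
    2 * sn * (((2 * c * y ^ 2 / ((y ^ 2 - 1) ^ 2 + 4 * c ^ 2 * y ^ 2) : ℝ) : ℂ) +
      ((y * (y ^ 2 - 1) / ((y ^ 2 - 1) ^ 2 + 4 * c ^ 2 * y ^ 2) : ℝ) : ℂ) * I) := by
  have hN : 0 < (y ^ 2 - 1) ^ 2 + 4 * c ^ 2 * y ^ 2 := by positivity
  have n1 : (y : ℂ) * (-(c : ℂ) - (sn : ℂ) * I) - I ≠ 0 := by
    intro h
    have := congrArg Complex.re h
    simp at this
    rcases this with h' | h' <;> linarith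
  have n2 : (y : ℂ) * (-(c : ℂ) + (sn : ℂ) * I) - I ≠ 0 := by
    intro h
    have := congrArg Complex.re h
    simp at this
    rcases this with h' | h' <;> linarith
  have h4 : I ^ 2 = -1 := Complex.I_sq
  have hprod : ((y : ℂ) * (-(c : ℂ) - (sn : ℂ) * I) - I) *
      ((y : ℂ) * (-(c : ℂ) + (sn : ℂ) * I) - I) = (y : ℂ) ^ 2 - 1 + 2 * I * c * y := by
    have h3 : (c : ℂ) ^ 2 + (sn : ℂ) ^ 2 = 1 := by exact_mod_cast hcs
    linear_combination (y : ℂ) ^ 2 * h3 + (1 - (y : ℂ) ^ 2 * (sn : ℂ) ^ 2) * h4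
  have hD : (y : ℂ) ^ 2 - 1 + 2 * I * c * y ≠ 0 := by
    rw [← hprod]; exact mul_ne_zero n1 n2
  rw [div_sub_div _ _ n1 n2, hprod]
  have hk : 1 * ((y : ℂ) * (-(c : ℂ) + (sn : ℂ) * I) - I) -
      ((y : ℂ) * (-(c : ℂ) - (sn : ℂ) * I) - I) * 1 = 2 * I * sn * y := by ring
  rw [hk, div_eq_iff hD]
  obtain ⟨N, hN'⟩ : ∃ N : ℝ, N = (y ^ 2 - 1) ^ 2 + 4 * c ^ 2 * y ^ 2 := ⟨_, rfl⟩
  rw [← hN']
  have hNc : (N : ℂ) ≠ 0 := by
    rw [← hN'] at hN
    exact_mod_cast hN.ne'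
  have key : (2 * (c : ℂ) * y ^ 2 + y * (y ^ 2 - 1) * I) * ((y : ℂ) ^ 2 - 1 + 2 * I * c * y) =
      y * I * N := by
    rw [hN']; push_cast
    linear_combination (2 * (c : ℂ) * y ^ 2 * (y ^ 2 - 1)) * h4
  have e5 : 2 * (sn : ℂ) * (((2 * c * y ^ 2 / N : ℝ) : ℂ) + ((y * (y ^ 2 - 1) / N : ℝ) : ℂ) * I) *
      ((y : ℂ) ^ 2 - 1 + 2 * I * c * y) = 2 * (sn : ℂ) *
      ((2 * (c : ℂ) * y ^ 2 + y * (y ^ 2 - 1) * I) * ((y : ℂ) ^ 2 - 1 + 2 * I * c * y)) / N := by
    push_cast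
    ring
  rw [e5, key]
  field_simp

lemma jump (h1 : 3 / 4 ≤ a) (h2 : a < 1) (x : ℝ) :
    1 / ((yy a x : ℂ) * (-(cc a : ℂ) - (Real.sin (Real.pi * a) : ℂ) * I) - I) -
    1 / ((yy a x : ℂ) * (-(cc a : ℂ) + (Real.sin (Real.pi * a) : ℂ) * I) - I) =
    -(2 * Real.pi) * kap a x := by
  have hcs : (cc a) ^ 2 + Real.sin (Real.pi * a) ^ 2 = 1 := by
    unfold cc
    have := Real.sin_sq_add_cos_sq (Real.pi * a)
    nlinarith
  rw [jump_core (yy_pos a x) (cc_pos h1 h2.le) hcs]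
  have hpc : (Real.pi : ℂ) ≠ 0 := by exact_mod_cast Real.pi_ne_zero
  change 2 * (Real.sin (Real.pi * a) : ℂ) * ((qA a x : ℂ) + (qB a x : ℂ) * I) = _
  unfold kap
  push_cast
  field_simp

lemma norm_kap {x : ℝ} (h1 : 3 / 4 ≤ a) (h2 : a ≤ 1) : ‖kap a x‖ ≤ 2 * dom x := by
  unfold kap
  rw [norm_mul, norm_neg, Complex.norm_real, Real.norm_eq_abs]
  have hpi := Real.pi_gt_three
  have e1 : |Real.sin (Real.pi * a) / Real.pi| ≤ 1 := by
    rw [abs_div, abs_of_pos Real.pi_pos, div_le_one Real.pi_pos]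
    have := Real.abs_sin_le_one (Real.pi * a)
    linarith
  have e2 : ‖(qA a x : ℂ) + (qB a x : ℂ) * I‖ ≤ 2 * dom x := by
    refine (norm_add_le _ _).trans ?_
    rw [norm_mul, Complex.norm_I, mul_one, Complex.norm_real, Complex.norm_real]
    have := abs_qA h1 h2 x
    have := abs_qB h1 h2 x
    change |qA a x| + |qB a x| ≤ _
    unfold qA qB
    linarith
  calc _ ≤ 1 * (2 * dom x) := mul_le_mul e1 e2 (norm_nonneg _) zero_le_one
    _ = _ := one_mul _

lemma cont_kap (h1 : 3 / 4 ≤ a) (h2 : a ≤ 1) : Continuous (kap a) := by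
  unfold kap
  have hy : Continuous (yy a) := by unfold yy; fun_prop
  have hN : Continuous (NN a) := by unfold NN; fun_prop
  have c1 : Continuous (qA a) := by
    unfold qA
    exact Continuous.div (by fun_prop) hN (fun x => (NN_pos h1 h2 x).ne')
  have c2 : Continuous (qB a) := by
    unfold qB
    exact Continuous.div (by fun_prop) hN (fun x => (NN_pos h1 h2 x).ne')
  fun_prop

lemma int_kap (h1 : 3 / 4 ≤ a) (h2 : a ≤ 1) : Integrable (kap a) :=
  (integrable_dom.const_mul 2).mono' (cont_kap h1 h2).aestronglyMeasurable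
    (Eventually.of_forall (fun _ => norm_kap h1 h2))

lemma int_kap_div (h1 : 3 / 4 ≤ a) (h2 : a ≤ 1) (hs : 0 < s) :
    Integrable (fun x : ℝ => kap a x / ((s + Real.exp x : ℝ) : ℂ)) := by
  have hne : ∀ x : ℝ, ((s + Real.exp x : ℝ) : ℂ) ≠ 0 := by
    intro x
    have := Real.exp_pos x
    exact_mod_cast (by positivity : s + Real.exp x ≠ 0)
  apply ((integrable_dom.const_mul 2).const_mul (1 / s)).mono'
  · apply Continuous.aestronglyMeasurable
    exact (cont_kap h1 h2).div (by fun_prop) hne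
  · apply Eventually.of_forall
    intro x
    rw [norm_div, Complex.norm_real, Real.norm_eq_abs, abs_of_pos (by positivity), div_eq_inv_mul]
    have h3 : (s + Real.exp x)⁻¹ ≤ 1 / s := by
      rw [one_div]
      apply inv_anti₀ hs
      have := Real.exp_pos x
      linarith
    exact mul_le_mul h3 (norm_kap h1 h2) (norm_nonneg _) (by positivity)

lemma hor_diff (h1 : 3 / 4 ≤ a) (h2 : a < 1) (hs : 0 < s) (x : ℝ) :
    Phi a s ((x : ℂ) + (-Real.pi : ℝ) * I) - Phi a s ((x : ℂ) + (Real.pi : ℝ) * I) =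
    -(2 * Real.pi) * (kap a x / ((s + Real.exp x : ℝ) : ℂ)) := by
  have hpi := Real.pi_pos
  have hb := half_bound h1
  have hp := half_pos h1
  have m1 : (x : ℂ) + (-Real.pi : ℝ) * I ≠ w0 a := by
    intro h
    have := congrArg Complex.im h
    rw [w0_im] at this
    simp at this
    linarith
  have m2 : (x : ℂ) + (-Real.pi : ℝ) * I ≠ (Real.log s : ℂ) := by
    intro h
    have := congrArg Complex.im h
    simp at this
  have m3 : (x : ℂ) + (Real.pi : ℝ) * I ≠ w0 a := by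
    intro h
    have := congrArg Complex.im h
    rw [w0_im] at this
    simp at this
    linarith
  have m4 : (x : ℂ) + (Real.pi : ℝ) * I ≠ (Real.log s : ℂ) := by
    intro h
    have := congrArg Complex.im h
    simp at this
  rw [Phi_eq h1 hs m1 m2, Phi_eq h1 hs m3 m4, exp_a_line, exp_a_line', exp_line, exp_line']
  unfold Ex
  have e : (s : ℂ) - -(Real.exp x : ℂ) = ((s + Real.exp x : ℝ) : ℂ) := by push_cast; ring
  rw [e]
  have hj := jump h1 h2 x
  obtain ⟨T, hT⟩ : ∃ T : ℂ, T = ((s + Real.exp x : ℝ) : ℂ) := ⟨_, rfl⟩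
  rw [← hT]
  have e1 : ∀ V : ℂ, 1 / (V * T) = (1 / V) * T⁻¹ := by
    intro V; rw [one_div, mul_inv, one_div]
  rw [e1, e1, div_eq_mul_inv (kap a x)]
  linear_combination T⁻¹ * hj

theorem strip_identity (h1 : 3 / 4 ≤ a) (h2 : a < 1) (hs : 0 < s) :
    ∫ x : ℝ, kap a x / ((s + Real.exp x : ℝ) : ℂ) = -I * Ex a s 0 0 := by
  have hi := int_kap_div h1 h2.le hs
  have hT := intervalIntegral_tendsto_integral hi tendsto_neg_atTop_atBot
    (tendsto_id (α := ℝ) (x := atTop))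
  have hl := lim_left h1 h2.le hs
  have hr := lim_right h1 h2.le hs
  have heq : ∀ R : ℝ, -(2 * Real.pi) * (∫ x : ℝ in -R..id R, kap a x / ((s + Real.exp x : ℝ) : ℂ)) +
      I * (∫ y : ℝ in -Real.pi..Real.pi, Phi a s (R + y * I)) -
      I * (∫ y : ℝ in -Real.pi..Real.pi, Phi a s ((-R : ℝ) + y * I)) = 0 := by
    intro R
    rw [← rect (s := s) h1 h2.le R, ← intervalIntegral.integral_sub, ← intervalIntegral.integral_const_mul]
    · congr 3
      funext x
      exact (hor_diff h1 h2 hs x).symm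
    · apply Continuous.intervalIntegrable
      apply cont_hor h1 h2.le
      rw [abs_neg, abs_of_pos Real.pi_pos]
    · apply Continuous.intervalIntegrable
      apply cont_hor h1 h2.le
      rw [abs_of_pos Real.pi_pos]
  have hlim := ((hT.const_mul (-(2 * Real.pi) : ℂ)).add (hr.const_mul I)).sub (hl.const_mul I)
  have h0 : Tendsto (fun _ : ℝ => (0 : ℂ)) atTop (𝓝 0) := tendsto_const_nhds
  have := tendsto_nhds_unique (hlim.congr (fun R => heq R)) h0
  have hpc : (Real.pi : ℂ) ≠ 0 := by exact_mod_cast Real.pi_ne_zero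
  have h5 : (2 * (Real.pi : ℂ)) * ((∫ x : ℝ, kap a x / ((s + Real.exp x : ℝ) : ℂ)) +
      I * Ex a s 0 0) = 0 := by
    linear_combination -this
  have h6 := (mul_eq_zero.1 h5).resolve_left (mul_ne_zero two_ne_zero hpc)
  linear_combination h6

end

end Pool.Agent.X216.ML
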